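import Mathlib

/-!
# Complete classes of matroids: definitions
-/

set_option autoImplicit false

namespace Pool.Agent.TH422.MC

open Matroid Set

/-- In the directed graph `Γ` the vertices in `X` can be joined by pairwise vertex-disjoint directed
paths onto an independent set of `M`: the path that starts in `x ∈ X` has the vertices
`p x 0 = x, p x 1, …, p x (len x)`. -/
def Linked {T : Type*} (Γ : Digraph T) (M : Matroid T) (X : Set T) : Prop :=
  ∃ (len : T → ℕ) (p : T → ℕ → T), (∀ x ∈ X, p x 0 = x) ∧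
    (∀ x ∈ X, ∀ i < len x, Γ.Adj (p x i) (p x (i + 1))) ∧
    (∀ x ∈ X, ∀ y ∈ X, ∀ i ≤ len x, ∀ j ≤ len y, p x i = p y j → x = y ∧ i = j) ∧
    M.Indep ((fun x => p x (len x)) '' X)

/-- `M` and `N` are isomorphic. -/
def Iso {α β : Type} (M : Matroid α) (N : Matroid β) : Prop :=
  ∃ f : M.E ≃ N.E, ∀ I : Set M.E, M.Indep (Subtype.val '' I) ↔ N.Indep (Subtype.val '' (f '' I))

/-- `N` is isomorphic to `M(K_4)`, the cycle matroid of the complete graph with four vertices: its
elements are the edges of `K_4`, and a set of edges is independent if and only if it contains no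
cycle. -/
def IsMK4 {α : Type} (N : Matroid α) : Prop :=
  ∃ f : (⊤ : SimpleGraph (Fin 4)).edgeSet → α, Function.Injective f ∧ range f = N.E ∧
    ∀ F : Set (⊤ : SimpleGraph (Fin 4)).edgeSet,
      N.Indep (f '' F) ↔ (SimpleGraph.fromEdgeSet (Subtype.val '' F)).IsAcyclic

/-- A class of matroids (with ground sets in types of the lowest universe). -/
abbrev MClass : Type 1 := ∀ α : Type, Matroid α → Prop

/-- A complete class of finite matroids: it is closed under isomorphism, restriction, contraction,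
duality, direct sum, truncation, and induction by finite directed graphs. -/
structure IsComplete (𝒞 : MClass) : Prop where
  finite : ∀ (α : Type) (M : Matroid α), 𝒞 α M → M.E.Finite
  iso : ∀ (α β : Type) (M : Matroid α) (N : Matroid β), Iso M N → 𝒞 α M → 𝒞 β N
  restrict : ∀ (α : Type) (M : Matroid α) (R : Set α), R ⊆ M.E → 𝒞 α M → 𝒞 α (M ↾ R)
  contract : ∀ (α : Type) (M : Matroid α) (X : Set α), X ⊆ M.E → 𝒞 α M → 𝒞 α (M ／ X)
  dual : ∀ (α : Type) (M : Matroid α), 𝒞 α M → 𝒞 α M✶
  sum : ∀ (α β : Type) (M : Matroid α) (N : Matroid β), 𝒞 α M → 𝒞 β N → 𝒞 (α ⊕ β) (M.sum N)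
  /-- `N` is the truncation of `M` to rank `k` -/
  truncate : ∀ (α : Type) (M N : Matroid α) (k : ℕ), N.E = M.E →
    (∀ I, N.Indep I ↔ M.Indep I ∧ I.encard ≤ k) → 𝒞 α M → 𝒞 α N
  /-- `N` is the matroid on the set `N.E` of vertices induced from `M` by `Γ` -/
  induce : ∀ (T : Type) [Finite T] (Γ : Digraph T) (M N : Matroid T),
    (∀ X, N.Indep X ↔ X ⊆ N.E ∧ Linked Γ M X) → 𝒞 T M → 𝒞 T N

/-- `𝒞` is a complete class that contains no copy of `M(K_4)`. -/
def CompleteAvoiding (𝒞 : MClass) : Prop :=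
  IsComplete 𝒞 ∧ ∀ (α : Type) (N : Matroid α), IsMK4 N → ¬ 𝒞 α N

/-- The class `𝒦` of the finite matroids with no minor isomorphic to `M(K_4)`. -/
def K : MClass := fun _ M => M.E.Finite ∧ ∀ N, N ≤m M → ¬ IsMK4 N

end Pool.Agent.TH422.MC
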