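import Pool.Agent.TH422.MC.K4

/-!
# The class of the matroids with no `M(K_4)`-minor is complete
-/

set_option autoImplicit false

namespace Pool.Agent.TH422.MC

open Matroid Set

/-- the edges of `K_4`, numbered -/
noncomputable def edE : Fin 6 ≃ (⊤ : SimpleGraph (Fin 4)).edgeSet :=
  Equiv.ofBijective (fun i => ⟨ed i, ed_mem i⟩) (by
    refine ⟨fun i j h => ed_injective (congrArg Subtype.val h), ?_⟩
    rintro ⟨e, he⟩
    obtain ⟨i, hi⟩ := exists_ed e (by
      rw [SimpleGraph.edgeSet_top] at he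
      exact he)
    exact ⟨i, Subtype.ext hi⟩)

theorem val_edE (I : Set (Fin 6)) : Subtype.val '' (edE '' I) = ed '' I := by
  rw [← image_comp]
  rfl

theorem isMK_iff {α : Type} (N : Matroid α) : IsMK N ↔ IsMK4 N := by
  constructor
  · rintro ⟨x, hx, hE, hI⟩
    refine ⟨x ∘ edE.symm, hx.comp edE.symm.injective, ?_, fun F => ?_⟩
    · rw [EquivLike.range_comp, hE]
    · obtain ⟨I, hI'⟩ := (Set.toFinite (edE ⁻¹' F)).exists_finset_coe
      have h1 : F = edE '' ↑I := by rw [hI', edE.image_preimage]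
      rw [h1, val_edE, acyclic_iff, ← hI, ← image_comp]
      have h2 : (x ∘ edE.symm) ∘ edE = x := by
        funext i
        simp
      rw [h2]
  · rintro ⟨f, hf, hE, hI⟩
    refine ⟨f ∘ edE, hf.comp edE.injective, ?_, fun I => ?_⟩
    · rw [EquivLike.range_comp, hE]
    · rw [image_comp, hI, val_edE, acyclic_iff]

theorem K_iff {α : Type} (M : Matroid α) (h : M.E.Finite) : K α M ↔ ¬ HasK4 (rk M) := by
  have : M.Finite := ⟨h⟩
  rw [hasK4_iff]
  unfold K
  rw [and_iff_right h]
  push Not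
  exact forall₂_congr fun N _ => by rw [isMK_iff]

theorem rk_iso {α β : Type} {M : Matroid α} {N : Matroid β} (f : M.E ≃ N.E)
    (hf : ∀ I : Set M.E, M.Indep (Subtype.val '' I) ↔ N.Indep (Subtype.val '' (f '' I)))
    (A : Set M.E) : rk M (Subtype.val '' A) = rk N (Subtype.val '' (f '' A)) := by
  have hc : ∀ I : Set M.E, (Subtype.val '' (f '' I) : Set β).encard =
      (Subtype.val '' I : Set α).encard := fun I => by
    rw [Subtype.val_injective.encard_image, f.injective.encard_image,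
      Subtype.val_injective.encard_image]
  unfold rk
  congr 1
  refine le_antisymm (eRk_le_of_forall ?_) (eRk_le_of_forall ?_)
  · intro I hIA hI
    obtain ⟨I', hI', rfl⟩ := subset_image_iff.1 hIA
    exact ⟨Subtype.val '' (f '' I'), image_mono (image_mono hI'), (hf I').1 hI, hc I'⟩
  · intro J hJA hJ
    obtain ⟨J', hJ', rfl⟩ := subset_image_iff.1 hJA
    obtain ⟨I', hI', rfl⟩ := subset_image_iff.1 hJ'
    exact ⟨Subtype.val '' I', image_mono hI', (hf I').2 hJ, (hc I').symm⟩

theorem hasK4_iso {α β : Type} {M : Matroid α} {N : Matroid β} (h : Iso M N)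
    (hN : N.E.Finite) (hK : HasK4 (rk N)) : HasK4 (rk M) := by
  have : N.Finite := ⟨hN⟩
  obtain ⟨f, hf⟩ := h
  obtain ⟨C, x, hx⟩ := hK
  have hxE : ∀ i, x i ∈ N.E := by
    intro i
    have h1 := (hx.indep {i}).2 (by rw [rK_single, Finset.card_singleton])
    exact (contract_ground_subset_ground N C) (h1.subset_ground ⟨i, by simp, rfl⟩)
  set y : Fin 6 → M.E := fun i => f.symm ⟨x i, hxE i⟩ with hy
  set C0 : Set M.E := {a | (f a : β) ∈ C} with hC0
  have key : ∀ I : Finset (Fin 6), rk M (Subtype.val '' (C0 ∪ y '' ↑I)) = rk N (C ∪ x '' ↑I) := by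
    intro I
    rw [rk_iso f hf]
    have h1 : Subtype.val '' (f '' (C0 ∪ y '' ↑I)) = (C ∪ x '' ↑I) ∩ N.E := by
      ext z
      simp only [mem_image, mem_inter_iff, mem_union]
      constructor
      · rintro ⟨b, ⟨a, ha, rfl⟩, rfl⟩
        refine ⟨?_, (f a).2⟩
        rcases ha with ha | ⟨i, hi, rfl⟩
        · exact Or.inl ha
        · refine Or.inr ⟨i, hi, ?_⟩
          simp [hy]
      · rintro ⟨hz, hzE⟩
        refine ⟨⟨z, hzE⟩, ⟨f.symm ⟨z, hzE⟩, ?_, by simp⟩, rfl⟩
        rcases hz with hz | ⟨i, hi, rfl⟩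
        · left
          simpa [hC0] using hz
        · exact Or.inr ⟨i, hi, rfl⟩
    rw [h1, rk, rk, eRk_inter_ground]
  have key0 : rk M (Subtype.val '' C0) = rk N C := by
    have := key ∅
    simpa using this
  refine ⟨Subtype.val '' C0, fun i => (y i : α), conf_of_table fun I => ?_⟩
  have h1 := key I
  have h2 := hx.table (isRk N) I
  rw [image_union, ← image_comp] at h1
  rw [key0, ← h2]
  exact h1

theorem isComplete_K : IsComplete K where
  finite _ _ h := h.1
  iso α β M N hMN hM := by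
    have hN : N.E.Finite := by
      obtain ⟨f, -⟩ := hMN
      have := hM.1.to_subtype
      have : Finite N.E := Finite.of_equiv _ f
      exact Set.toFinite _
    rw [K_iff N hN]
    exact fun h => (K_iff M hM.1).1 hM (hasK4_iso hMN hN h)
  restrict α M R hR hM := by
    refine ⟨hM.1.subset hR, fun N hN => hM.2 N (hN.trans ⟨∅, M.E \ R, ?_⟩)⟩
    rw [contract_empty, delete_compl hR]
  contract α M X _ hM := by
    refine ⟨hM.1.subset (contract_ground_subset_ground M X), fun N hN =>
      hM.2 N (hN.trans ⟨X, ∅, ?_⟩)⟩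
    rw [delete_empty]
  dual α M hM := by
    have : M.Finite := ⟨hM.1⟩
    rw [K_iff M✶ hM.1]
    exact fun h => (K_iff M hM.1).1 hM (hasK4_dual h)
  sum α β M N hM hN := by
    have : M.Finite := ⟨hM.1⟩
    have : N.Finite := ⟨hN.1⟩
    have hE : (M.sum N).E.Finite := by
      rw [sum_ground]
      exact (hM.1.image _).union (hN.1.image _)
    rw [K_iff _ hE]
    intro h
    rcases hasK4_sum h with h | h
    · exact (K_iff M hM.1).1 hM h
    · exact (K_iff N hN.1).1 hN h
  truncate α M N k hE hI hM := by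
    have : M.Finite := ⟨hM.1⟩
    rw [K_iff N (hE ▸ hM.1)]
    exact fun h => (K_iff M hM.1).1 hM (hasK4_trunc hI h)
  induce T _ Γ M N hN hM := by
    rw [K_iff N (Set.toFinite _)]
    exact fun h => (K_iff M hM.1).1 hM (hasK4_induce hN h)

theorem avoid_K (α : Type) (N : Matroid α) (hN : IsMK4 N) : ¬ K α N :=
  fun h => h.2 N IsMinor.refl hN

theorem le_K {𝒞 : MClass} (h : CompleteAvoiding 𝒞) (α : Type) (M : Matroid α) (hM : 𝒞 α M) :
    K α M := by
  refine ⟨h.1.finite α M hM, ?_⟩
  rintro N ⟨C, D, rfl⟩ hN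
  refine h.2 α _ hN ?_
  have h1 : 𝒞 α (M ／ C) := by
    rw [← contract_inter_ground_eq]
    exact h.1.contract α M _ inter_subset_right hM
  rw [delete_eq_restrict]
  exact h.1.restrict α _ _ sdiff_subset h1

/-- a set of edges as a finite set -/
noncomputable def fs (X : Set (Fin 6)) : Finset (Fin 6) := (Set.toFinite X).toFinset

theorem mem_fs {X : Set (Fin 6)} {a : Fin 6} : a ∈ fs X ↔ a ∈ X := Set.Finite.mem_toFinset _

theorem rK_sub : ∀ I J : Finset (Fin 6), rK (I ∪ J) + rK (I ∩ J) ≤ rK I + rK J := by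
  decide +kernel

theorem rK_mono : ∀ I J : Finset (Fin 6), I ⊆ J → rK I ≤ rK J := by decide +kernel

theorem rK_insert : ∀ (a : Fin 6) (I : Finset (Fin 6)), rK (insert a I) ≤ rK I + 1 := by
  decide +kernel

theorem isRk_fs : IsRk (fun X => rK (fs X)) := by
  refine ⟨fun {X Y} h => rK_mono _ _ fun z hz => mem_fs.2 (h (mem_fs.1 hz)), fun X a => ?_,
    fun X Y => ?_⟩
  · have h1 : fs (insert a X) = insert a (fs X) := by
      ext z
      rw [mem_fs, Finset.mem_insert, mem_fs, mem_insert_iff]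
    show rK (fs (insert a X)) ≤ rK (fs X) + 1
    rw [h1]
    exact rK_insert _ _
  · have h1 : fs (X ∪ Y) = fs X ∪ fs Y := by
      ext z
      rw [mem_fs, Finset.mem_union, mem_fs, mem_fs, mem_union]
    have h2 : fs (X ∩ Y) = fs X ∩ fs Y := by
      ext z
      rw [mem_fs, Finset.mem_inter, mem_fs, mem_fs, mem_inter_iff]
    show rK (fs (X ∪ Y)) + rK (fs (X ∩ Y)) ≤ rK (fs X) + rK (fs Y)
    rw [h1, h2]
    exact rK_sub _ _

theorem fs_empty : rK (fs ∅) = 0 := by
  have h1 : fs ∅ = ∅ := by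
    ext z
    rw [mem_fs]
    simp
  rw [h1]
  rfl

theorem fs_coe (I : Finset (Fin 6)) : fs ↑I = I := by
  ext z
  rw [mem_fs, Finset.mem_coe]

/-- the matroid `M(K_4)` exists -/
theorem exists_isMK4 : ∃ N : Matroid (Fin 6), IsMK4 N := by
  refine ⟨ofRk _ isRk_fs fs_empty, (isMK_iff _).1 ⟨id, Function.injective_id, ?_, fun I => ?_⟩⟩
  · rw [range_id, ofRk_E]
  · rw [image_id, ofRk_indep, ncard_coe_finset]
    show rK (fs ↑I) = _ ↔ _
    rw [fs_coe]

end Pool.Agent.TH422.MC
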