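import Pool.Agent.TH422.MC.Ind

/-!
# Linkings in directed graphs and matchings (Ingleton and Piff)
-/

set_option autoImplicit false

namespace Pool.Agent.TH422.MC

open Matroid Set

variable {T : Type*}

/-- from a base of `D` disjoint from `X` to paths -/
theorem linked_of_matching [Finite T] {Γ : Digraph T} {M : Matroid T} {X B : Set T}
    (hB : M.Indep B) {ν : T → T} (hν : InjOn ν Bᶜ) (hX : ∀ t, t ∉ B → ν t ∉ X)
    (hR : ∀ t, t ∉ B → t = ν t ∨ Γ.Adj t (ν t)) : Linked Γ M X := by
  classical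
  -- peeling
  have peel : ∀ i j (x y : T), x ∈ X → y ∈ X → (∀ k < i, ν^[k] x ∉ B) → (∀ k < j, ν^[k] y ∉ B) →
      ν^[i] x = ν^[j] y → x = y ∧ i = j := by
    intro i
    induction i with
    | zero =>
      intro j x y hx hy _ hj h
      cases j with
      | zero => exact ⟨h, rfl⟩
      | succ j =>
        exfalso
        rw [Function.iterate_succ_apply'] at h
        have h1 := hX _ (hj j (Nat.lt_succ_self j))
        rw [← h] at h1
        exact h1 hx
    | succ i ih =>
      intro j x y hx hy hi hj h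
      cases j with
      | zero =>
        exfalso
        rw [Function.iterate_succ_apply'] at h
        have h1 := hX _ (hi i (Nat.lt_succ_self i))
        rw [h] at h1
        exact h1 hy
      | succ j =>
        rw [Function.iterate_succ_apply', Function.iterate_succ_apply'] at h
        have h1 := hν (hi i (Nat.lt_succ_self i)) (hj j (Nat.lt_succ_self j)) h
        obtain ⟨h2, h3⟩ := ih j x y hx hy (fun k hk => hi k (hk.trans (Nat.lt_succ_self i)))
          (fun k hk => hj k (hk.trans (Nat.lt_succ_self j))) h1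
        exact ⟨h2, by rw [h3]⟩
  have hex : ∀ x ∈ X, ∃ i, ν^[i] x ∈ B := by
    intro x hx
    by_contra hcon
    push Not at hcon
    obtain ⟨i, j, hij, h⟩ := Finite.exists_ne_map_eq_of_infinite (fun i : ℕ => ν^[i] x)
    exact hij (peel i j x x hx hx (fun k _ => hcon k) (fun k _ => hcon k) h).2
  have hlen : ∀ x, ∃ n, x ∈ X → (ν^[n] x ∈ B ∧ ∀ k < n, ν^[k] x ∉ B) := by
    intro x
    by_cases hx : x ∈ X
    · exact ⟨Nat.find (hex x hx), fun _ => ⟨Nat.find_spec (hex x hx),
        fun k hk => Nat.find_min (hex x hx) hk⟩⟩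
    · exact ⟨0, fun h => absurd h hx⟩
  choose len hlen using hlen
  refine ⟨len, fun x i => ν^[i] x, fun x _ => rfl, ?_, ?_, ?_⟩
  · intro x hx i hi
    obtain ⟨-, h2⟩ := hlen x hx
    rcases hR _ (h2 i hi) with h | h
    · exfalso
      have h3 : ν^[i] x = ν^[i + 1] x := by
        rw [Function.iterate_succ_apply']
        exact h
      have h4 := (peel i (i + 1) x x hx hx (fun k hk => h2 k (hk.trans hi))
        (fun k hk => h2 k (by omega)) h3).2
      omega
    · show Γ.Adj (ν^[i] x) (ν^[i + 1] x)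
      rw [Function.iterate_succ_apply']
      exact h
  · intro x hx y hy i hi j hj h
    exact peel i j x y hx hy (fun k hk => (hlen x hx).2 k (by omega))
      (fun k hk => (hlen y hy).2 k (by omega)) h
  · refine hB.subset ?_
    rintro _ ⟨x, hx, rfl⟩
    exact (hlen x hx).1

/-- from paths to a matching -/
theorem matching_of_linked {Γ : Digraph T} {M : Matroid T} {X : Set T} (h : Linked Γ M X) :
    ∃ (Y : Set T) (ν : T → T), M.Indep Y ∧ InjOn ν Yᶜ ∧ (∀ t, t ∉ Y → ν t ∉ X) ∧
      ∀ t, t ∉ Y → t = ν t ∨ Γ.Adj t (ν t) := by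
  classical
  obtain ⟨len, p, h0, hadj, hinj, hind⟩ := h
  set Q : T → Prop := fun t => ∃ x i, x ∈ X ∧ i < len x ∧ p x i = t with hQ
  have hν : ∀ t, ∃ s, (Q t → ∃ x i, x ∈ X ∧ i < len x ∧ p x i = t ∧ s = p x (i + 1)) ∧
      (¬ Q t → s = t) := by
    intro t
    by_cases hq : Q t
    · obtain ⟨x, i, hx, hi, hp⟩ := hq
      exact ⟨p x (i + 1), fun _ => ⟨x, i, hx, hi, hp, rfl⟩, fun h => absurd ⟨x, i, hx, hi, hp⟩ h⟩
    · exact ⟨t, fun h => absurd h hq, fun _ => rfl⟩
  choose ν hν1 hν2 using hν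
  have hoff : ∀ t, t ∉ (fun x => p x (len x)) '' X → ¬ Q t → ∀ x ∈ X, ∀ i ≤ len x, p x i ≠ t := by
    intro t ht hq x hx i hi hp
    rcases Nat.lt_or_ge i (len x) with h1 | h1
    · exact hq ⟨x, i, hx, h1, hp⟩
    · have h2 : i = len x := le_antisymm hi h1
      exact ht ⟨x, hx, by rw [← hp, h2]⟩
  refine ⟨(fun x => p x (len x)) '' X, ν, hind, ?_, ?_, ?_⟩
  · intro t ht s hs hts
    by_cases hqt : Q t
    · obtain ⟨x, i, hx, hi, hp, hv⟩ := hν1 t hqt
      by_cases hqs : Q s
      · obtain ⟨y, j, hy, hj, hp', hv'⟩ := hν1 s hqs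
        rw [hv, hv'] at hts
        obtain ⟨h1, h2⟩ := hinj x hx y hy (i + 1) hi (j + 1) hj hts
        subst h1
        have h3 : i = j := by omega
        rw [← hp, ← hp', h3]
      · exfalso
        rw [hv, hν2 s hqs] at hts
        exact hoff s hs hqs x hx (i + 1) hi hts
    · by_cases hqs : Q s
      · exfalso
        obtain ⟨y, j, hy, hj, hp', hv'⟩ := hν1 s hqs
        rw [hν2 t hqt, hv'] at hts
        exact hoff t ht hqt y hy (j + 1) hj hts.symm
      · rw [hν2 t hqt, hν2 s hqs] at hts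
        exact hts
  · intro t ht htX
    by_cases hqt : Q t
    · obtain ⟨x, i, hx, hi, hp, hv⟩ := hν1 t hqt
      have h1 := h0 (ν t) htX
      have h2 : p x (i + 1) = p (ν t) 0 := by rw [h1, hv]
      have h3 := (hinj x hx (ν t) htX (i + 1) hi 0 (Nat.zero_le _) h2).2
      omega
    · rw [hν2 t hqt] at htX
      exact hoff t ht hqt t htX 0 (Nat.zero_le _) (h0 t htX)
  · intro t ht
    by_cases hqt : Q t
    · obtain ⟨x, i, hx, hi, hp, hv⟩ := hν1 t hqt
      right
      rw [hv, ← hp]
      exact hadj x hx i hi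
    · exact Or.inl (hν2 t hqt).symm

/-- the class of the matroids with no `M(K_4)`-minor is closed under induction by directed graphs -/
theorem hasK4_induce [Finite T] {Γ : Digraph T} {M N : Matroid T}
    (hN : ∀ X, N.Indep X ↔ X ⊆ N.E ∧ Linked Γ M X) (h : HasK4 (rk N)) : HasK4 (rk M) := by
  classical
  set M1 : Matroid T := M ↾ univ with hM1
  have hM1i : ∀ I, M1.Indep I ↔ M.Indep I := fun I => by
    rw [hM1, restrict_indep_iff, and_iff_left (subset_univ _)]
  have : M1.Finite := ⟨Set.toFinite _⟩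
  have : M.Finite := ⟨Set.toFinite _⟩
  have : N.Finite := ⟨Set.toFinite _⟩
  have hM1E : M1.E = univ := rfl
  set R : T → T → Prop := fun a b => a = b ∨ Γ.Adj a b with hR
  obtain ⟨D, hDE, hDK, hD⟩ := exists_bip R M1✶
  have : D.Finite := ⟨Set.toFinite _⟩
  -- bases of the dual
  have hcompl : ∀ B, M1.IsBase B → M1✶.IsBase Bᶜ := fun B hB => by
    have := hB.compl_isBase_dual
    rwa [hM1E, ← compl_eq_univ_sdiff] at this
  obtain ⟨B0, hB0⟩ := M1.exists_isBase
  have hDbase : ∀ Z, D.IsBase Z ↔ D.Indep Z ∧ Z.ncard = (B0ᶜ).ncard := by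
    have hle : ∀ Z, D.Indep Z → Z.ncard ≤ (B0ᶜ).ncard := by
      intro Z hZ
      obtain ⟨μ, h1, -, h3⟩ := (hD Z).1 hZ
      have h4 := h3.encard_le_eRank
      rw [← (hcompl B0 hB0).encard_eq_eRank, h1.encard_image,
        ← (Set.toFinite Z).cast_ncard_eq, ← (Set.toFinite (B0ᶜ)).cast_ncard_eq] at h4
      exact_mod_cast h4
    have hD0 : D.Indep B0ᶜ := by
      rw [hD]
      refine ⟨id, injOn_id _, fun z _ => Or.inl rfl, ?_⟩
      rw [image_id]
      exact (hcompl B0 hB0).indep
    intro Z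
    constructor
    · intro hZ
      refine ⟨hZ.indep, le_antisymm (hle Z hZ.indep) ?_⟩
      have h4 := hD0.encard_le_eRank
      rw [← hZ.encard_eq_eRank, ← (Set.toFinite Z).cast_ncard_eq,
        ← (Set.toFinite (B0ᶜ)).cast_ncard_eq] at h4
      exact_mod_cast h4
    · rintro ⟨h1, h2⟩
      rw [isBase_iff_maximal_indep, maximal_iff]
      refine ⟨h1, fun {W} hW hZW => ?_⟩
      exact Set.eq_of_subset_of_ncard_le hZW (by rw [h2]; exact hle W hW) (Set.toFinite W)
  have hlink : ∀ X, D✶.Indep X ↔ Linked Γ M X := by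
    intro X
    rw [dual_indep_iff_exists', hDE, and_iff_right (subset_univ _)]
    constructor
    · rintro ⟨Z, hZ, hXZ⟩
      obtain ⟨hZi, hZc⟩ := (hDbase Z).1 hZ
      obtain ⟨μ, h1, h2, h3⟩ := (hD Z).1 hZi
      have h4 : M1✶.IsBase (μ '' Z) := by
        obtain ⟨B', hB', hsub⟩ := Indep.exists_isBase_superset h3
        have h5 := hB'.encard_eq_encard_of_isBase (hcompl B0 hB0)
        rw [← (Set.toFinite B').cast_ncard_eq, ← (Set.toFinite (B0ᶜ)).cast_ncard_eq] at h5
        have h6 : B'.ncard = (B0ᶜ).ncard := by exact_mod_cast h5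
        have h7 := Set.eq_of_subset_of_ncard_le hsub
          (by rw [h6, ← hZc, h1.ncard_image]) (Set.toFinite B')
        rw [h7]
        exact hB'
      have h5 := h4.compl_isBase_of_dual
      rw [hM1E, ← compl_eq_univ_sdiff] at h5
      have hinv : ∀ t, ∃ z, t ∈ μ '' Z → (z ∈ Z ∧ μ z = t) := by
        intro t
        by_cases ht : t ∈ μ '' Z
        · obtain ⟨z, hz, hzt⟩ := ht
          exact ⟨z, fun _ => ⟨hz, hzt⟩⟩
        · exact ⟨t, fun h => absurd h ht⟩
      choose ν hν using hinv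
      refine linked_of_matching (B := (μ '' Z)ᶜ) ((hM1i _).1 h5.indep) (ν := ν) ?_ ?_ ?_
      · rw [compl_compl]
        intro a ha b hb hab
        rw [← (hν a ha).2, ← (hν b hb).2, hab]
      · intro t ht
        rw [notMem_compl_iff] at ht
        exact fun h6 => (Set.disjoint_left.1 hXZ) h6 (hν t ht).1
      · intro t ht
        rw [notMem_compl_iff] at ht
        have h6 := h2 _ (hν t ht).1
        rw [(hν t ht).2] at h6
        exact h6
    · intro hX
      obtain ⟨Y, ν, hY, hν1, hν2, hν3⟩ := matching_of_linked hX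
      obtain ⟨B, hB, hYB⟩ := ((hM1i Y).2 hY).exists_isBase_superset
      have hBY : Bᶜ ⊆ Yᶜ := compl_subset_compl.2 hYB
      have hinj : InjOn ν Bᶜ := hν1.mono hBY
      refine ⟨ν '' Bᶜ, (hDbase _).2 ⟨(hD _).2 ?_, ?_⟩, ?_⟩
      · have hinv : ∀ z, ∃ t, z ∈ ν '' Bᶜ → (t ∈ Bᶜ ∧ ν t = z) := by
          intro z
          by_cases hz : z ∈ ν '' Bᶜ
          · obtain ⟨t, ht, htz⟩ := hz
            exact ⟨t, fun _ => ⟨ht, htz⟩⟩
          · exact ⟨z, fun h => absurd h hz⟩
        choose μ hμ using hinv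
        refine ⟨μ, ?_, ?_, ?_⟩
        · intro a ha b hb hab
          rw [← (hμ a ha).2, ← (hμ b hb).2, hab]
        · intro z hz
          have h6 := hν3 _ (hBY (hμ z hz).1)
          rw [(hμ z hz).2] at h6
          exact h6
        · have h7 : μ '' (ν '' Bᶜ) ⊆ Bᶜ := by
            rintro _ ⟨z, hz, rfl⟩
            exact (hμ z hz).1
          exact (hcompl B hB).indep.subset h7
      · rw [hinj.ncard_image]
        have h8 := (hcompl B hB).encard_eq_encard_of_isBase (hcompl B0 hB0)
        rw [← (Set.toFinite (Bᶜ)).cast_ncard_eq, ← (Set.toFinite (B0ᶜ)).cast_ncard_eq] at h8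
        exact_mod_cast h8
      · rw [Set.disjoint_left]
        rintro x hx ⟨t, ht, rfl⟩
        exact hν2 t (hBY ht) hx
  have hNr : N = D✶ ↾ N.E := by
    refine ext_indep rfl fun I hI => ?_
    rw [restrict_indep_iff, hlink, hN]
    exact and_comm
  have h1 : HasK4 (rk D✶) := by
    obtain ⟨P, hP, hMK⟩ := exists_minor_of_hasK4 h
    refine hMK.hasK4 (hP.trans ⟨∅, D✶.E \ N.E, ?_⟩)
    rw [contract_empty, delete_compl (by rw [dual_ground, hDE]; exact subset_univ _)]
    exact hNr
  have h2 := hDK (hasK4_dual h1)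
  have h3 := hasK4_dual h2
  have h4 : rk M1 = rk M := by
    funext X
    rw [rk, rk, hM1, restrict_eRk_eq', inter_univ]
  rwa [h4] at h3

end Pool.Agent.TH422.MC
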