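import Pool.Agent.TH422.MC.Mat
import Pool.Agent.TH422.MC.Defs

/-!
# Induction by directed graphs
-/

set_option autoImplicit false

namespace Pool.Agent.TH422.MC

open Matroid Set

variable {T : Type*}

/-- matchings onto independent sets -/
def Match (R : T → T → Prop) (M : Matroid T) (X : Set (T ⊕ T)) : Prop :=
  ∃ μ : T → T, InjOn μ (Sum.inr ⁻¹' X) ∧ (∀ z, Sum.inr z ∈ X → R (μ z) z) ∧
    (∀ z, Sum.inr z ∈ X → Sum.inl (μ z) ∉ X) ∧
    M.Indep (Sum.inl ⁻¹' X ∪ μ '' (Sum.inr ⁻¹' X))

theorem isRk_pre (M : Matroid T) [M.Finite] :
    IsRk (fun X : Set (T ⊕ T) => rk M (Sum.inl ⁻¹' X)) := by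
  refine ⟨fun {X Y} hXY => (isRk M).mono (preimage_mono hXY), fun X a => ?_, fun X Y => ?_⟩
  · rcases a with a | a
    · have h1 : Sum.inl ⁻¹' (insert (Sum.inl a) X : Set (T ⊕ T)) = insert a (Sum.inl ⁻¹' X) := by
        ext z
        simp
      show rk M (Sum.inl ⁻¹' (insert (Sum.inl a) X : Set (T ⊕ T))) ≤ _
      rw [h1]
      exact (isRk M).unit _ _
    · have h2 : Sum.inl ⁻¹' (insert (Sum.inr a) X : Set (T ⊕ T)) = Sum.inl ⁻¹' X := by
        ext z
        simp
      show rk M (Sum.inl ⁻¹' (insert (Sum.inr a) X : Set (T ⊕ T))) ≤ _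
      rw [h2]
      omega
  · exact (isRk M).sub _ _

theorem exists_rank [Finite T] (R : T → T → Prop) (M : Matroid T) (Q : Finset T) :
    ∃ r : Set (T ⊕ T) → ℕ, IsRk r ∧ r ∅ = 0 ∧ (HasK4 r → HasK4 (rk M)) ∧
      ∀ X : Set (T ⊕ T), (∀ z, Sum.inr z ∈ X → z ∈ Q) → (r X = X.ncard ↔ Match R M X) := by
  classical
  have : M.Finite := ⟨Set.toFinite _⟩
  induction Q using Finset.induction_on with
  | empty =>
    refine ⟨fun X => rk M (Sum.inl ⁻¹' X), isRk_pre M, ?_, ?_, ?_⟩
    · show rk M (Sum.inl ⁻¹' (∅ : Set (T ⊕ T))) = 0
      rw [preimage_empty]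
      exact rk_eq M.eRk_empty
    · rintro ⟨C, x, hx⟩
      have hr := isRk_pre M
      have htab := hx.table hr
      have h6 : ∀ i, ∃ b, x i = Sum.inl b := by
        intro i
        have h7 := htab {i}
        rw [rK_single] at h7
        rcases hxi : x i with a | b
        · exact ⟨a, rfl⟩
        · exfalso
          have h8 : Sum.inl ⁻¹' (C ∪ x '' ↑({i} : Finset (Fin 6))) = Sum.inl ⁻¹' C := by
            ext z
            simp [hxi]
          simp only [h8] at h7
          omega
      choose y hy using h6
      refine ⟨Sum.inl ⁻¹' C, y, conf_of_table fun I => ?_⟩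
      have h7 := htab I
      have h8 : Sum.inl ⁻¹' (C ∪ x '' ↑I) = Sum.inl ⁻¹' C ∪ y '' ↑I := by
        ext z
        simp only [mem_preimage, mem_union, mem_image, hy, Sum.inl.injEq]
      simp only [h8] at h7
      exact h7
    · intro X hX
      have hX' : Sum.inr ⁻¹' X = ∅ := by
        ext z
        simp only [mem_preimage, mem_empty_iff_false, iff_false]
        exact fun h => Finset.notMem_empty _ (hX z h)
      have hcard : X.ncard = (Sum.inl ⁻¹' X).ncard := by
        conv_lhs => rw [← image_preimage_inl_union_image_preimage_inr X, hX', image_empty,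
          union_empty]
        exact ncard_image_of_injective _ Sum.inl_injective
      have h1 : rk M (Sum.inl ⁻¹' X) = X.ncard ↔ M.Indep (Sum.inl ⁻¹' X) := by
        rw [indep_iff_eRk_eq_encard_of_finite (Set.toFinite _), hcard, ← coe_rk,
          ← (Set.toFinite _).cast_ncard_eq]
        exact_mod_cast Iff.rfl
      show rk M (Sum.inl ⁻¹' X) = X.ncard ↔ _
      rw [h1]
      constructor
      · intro h
        refine ⟨id, ?_, ?_, ?_, ?_⟩
        · rw [hX']
          exact injOn_empty _
        · exact fun z hz => absurd (hX z hz) (Finset.notMem_empty _)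
        · exact fun z hz => absurd (hX z hz) (Finset.notMem_empty _)
        · rwa [hX', image_empty, union_empty]
      · rintro ⟨μ, -, -, -, h⟩
        rwa [hX', image_empty, union_empty] at h
  | @insert q Q hq ih =>
    obtain ⟨r, hr, h0, hK, hr'⟩ := ih
    set S : Set (T ⊕ T) := Sum.inl '' {t | R t q} with hS
    refine ⟨PE r S (Sum.inr q), hr.PE _ _, ?_, fun h => hK (hasK4_of_PE hr (Set.toFinite _) h), ?_⟩
    · rw [PE_of_notMem (notMem_empty _), h0]
    · intro X hX
      by_cases hqX : Sum.inr q ∈ X
      · set X' := X \ {Sum.inr q} with hX'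
        have hqX' : Sum.inr q ∉ X' := fun h => h.2 rfl
        have hins : insert (Sum.inr q) X' = X := by
          rw [hX', insert_sdiff_singleton, insert_eq_of_mem hqX]
        have hcard : X.ncard = X'.ncard + 1 := by
          rw [← hins, ncard_insert_of_notMem hqX' (Set.toFinite _)]
        rw [PE_of_mem hqX]
        have hle := hr.le_ncard h0 X'
        have h1 : min (r X' + 1) (r (X' ∪ S)) = X.ncard ↔
            ∃ t, R t q ∧ r (insert (Sum.inl t) X') = X'.ncard + 1 := by
          rw [hcard]
          constructor
          · intro h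
            have h2 : r X' = X'.ncard := by omega
            have h3 : X'.ncard + 1 ≤ r (X' ∪ S) := by omega
            by_contra hcon
            push Not at hcon
            have h4 := hr.union_le_of_forall (X := X') (Set.toFinite S) (by
              rintro _ ⟨t, ht, rfl⟩
              have h5 := hcon t ht
              have h6 := hr.unit X' (Sum.inl t)
              omega)
            omega
          · rintro ⟨t, ht, h⟩
            have h2 := hr.unit X' (Sum.inl t)
            have h3 : r (insert (Sum.inl t) X') ≤ r (X' ∪ S) := by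
              refine hr.mono (insert_subset (Or.inr ⟨t, ht, rfl⟩) subset_union_left)
            omega
        rw [h1]
        have hX'Q : ∀ z, Sum.inr z ∈ X' → z ∈ Q := by
          intro z hz
          have h2 := hX z hz.1
          rw [Finset.mem_insert] at h2
          refine h2.resolve_left ?_
          rintro rfl
          exact hqX' hz
        have h2 : ∀ t, (r (insert (Sum.inl t) X') = X'.ncard + 1 ↔
            Sum.inl t ∉ X' ∧ Match R M (insert (Sum.inl t) X')) := by
          intro t
          by_cases htX : Sum.inl t ∈ X'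
          · rw [insert_eq_of_mem htX]
            constructor
            · intro h
              omega
            · exact fun h => absurd htX h.1
          · rw [← ncard_insert_of_notMem htX (Set.toFinite _), hr' _ (by
              intro z hz
              refine hX'Q z ?_
              rcases hz with hz | hz
              · exact absurd hz (by simp)
              · exact hz), and_iff_right htX]
        have hX'r : Sum.inr ⁻¹' X = insert q (Sum.inr ⁻¹' X') := by
          rw [← hins]
          ext z
          simp
        have hX'l : (Sum.inl ⁻¹' X : Set T) = Sum.inl ⁻¹' X' := by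
          rw [← hins]
          ext z
          simp
        have hXr' : ∀ t, (Sum.inr ⁻¹' (insert (Sum.inl t) X') : Set T) = Sum.inr ⁻¹' X' := by
          intro t
          ext z
          simp
        have hXl' : ∀ t, (Sum.inl ⁻¹' (insert (Sum.inl t) X') : Set T) =
            insert t (Sum.inl ⁻¹' X') := by
          intro t
          ext z
          simp
        constructor
        · rintro ⟨t, ht, h⟩
          obtain ⟨htX, μ, hμ1, hμ2, hμ3, hμ4⟩ := (h2 t).1 h
          rw [hXr'] at hμ1 hμ4
          rw [hXl'] at hμ4
          have hne : ∀ z, Sum.inr z ∈ X' → z ≠ q := fun z hz h => hqX' (h ▸ hz)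
          have hup : ∀ z, Sum.inr z ∈ X' → Function.update μ q t z = μ z := fun z hz =>
            Function.update_of_ne (hne z hz) _ _
          have hup' : Function.update μ q t '' (Sum.inr ⁻¹' X') = μ '' (Sum.inr ⁻¹' X') :=
            image_congr fun z hz => hup z hz
          refine ⟨Function.update μ q t, ?_, ?_, ?_, ?_⟩
          · rw [hX'r, injOn_insert (by simpa using hqX')]
            refine ⟨?_, ?_⟩
            · intro z hz w hw hzw
              rw [hup z hz, hup w hw] at hzw
              exact hμ1 hz hw hzw
            · rw [Function.update_self, hup']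
              rintro ⟨z, hz, hzt⟩
              exact hμ3 z (Or.inr hz) (hzt ▸ mem_insert _ _)
          · intro z hz
            by_cases hzq : z = q
            · rw [hzq, Function.update_self]
              exact ht
            · rw [Function.update_of_ne hzq]
              have : Sum.inr z ∈ X' := ⟨hz, fun h => hzq (Sum.inr_injective h)⟩
              exact hμ2 z (Or.inr this)
          · intro z hz
            by_cases hzq : z = q
            · rw [hzq, Function.update_self]
              exact fun h => htX ⟨h, by simp⟩
            · rw [Function.update_of_ne hzq]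
              have : Sum.inr z ∈ X' := ⟨hz, fun h => hzq (Sum.inr_injective h)⟩
              exact fun h => hμ3 z (Or.inr this) (Or.inr ⟨h, by simp⟩)
          · rw [hX'r, image_insert_eq, Function.update_self, hup', hX'l, union_insert]
            rwa [insert_union] at hμ4
        · rintro ⟨μ, hμ1, hμ2, hμ3, hμ4⟩
          refine ⟨μ q, hμ2 q hqX, (h2 _).2 ⟨fun h => hμ3 q hqX h.1, μ, ?_, ?_, ?_, ?_⟩⟩
          · rw [hXr']
            refine hμ1.mono ?_
            rw [hX'r]
            exact subset_insert _ _
          · intro z hz
            refine hμ2 z ?_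
            rcases hz with hz | hz
            · exact absurd hz (by simp)
            · exact hz.1
          · intro z hz
            have hz' : Sum.inr z ∈ X' := by
              rcases hz with hz | hz
              · exact absurd hz (by simp)
              · exact hz
            rintro (h | h)
            · have h3 := hμ1 hz'.1 hqX (Sum.inl_injective h)
              exact hqX' (h3 ▸ hz')
            · exact hμ3 z hz'.1 h.1
          · rw [hXr', hXl', insert_union]
            rw [hX'r, image_insert_eq, hX'l, union_insert] at hμ4
            exact hμ4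
      · rw [PE_of_notMem hqX]
        refine hr' X fun z hz => ?_
        have h2 := hX z hz
        rw [Finset.mem_insert] at h2
        refine h2.resolve_left ?_
        rintro rfl
        exact hqX hz

/-- the matroid induced by a bipartite graph -/
theorem exists_bip [Finite T] (R : T → T → Prop) (M : Matroid T) :
    ∃ D : Matroid T, D.E = univ ∧ (HasK4 (rk D) → HasK4 (rk M)) ∧
      ∀ Z : Set T, D.Indep Z ↔ ∃ μ : T → T, InjOn μ Z ∧ (∀ z ∈ Z, R (μ z) z) ∧
        M.Indep (μ '' Z) := by
  classical
  have := Fintype.ofFinite T
  obtain ⟨r, hr, h0, hK, hr'⟩ := exists_rank R M Finset.univ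
  have hg : IsRk (fun Z : Set T => r (Sum.inr '' Z)) := by
    refine ⟨fun {X Y} h => hr.mono (image_mono h), fun X a => ?_, fun X Y => ?_⟩
    · show r (Sum.inr '' (insert a X)) ≤ _
      rw [image_insert_eq]
      exact hr.unit _ _
    · show r (Sum.inr '' (X ∪ Y)) + r (Sum.inr '' (X ∩ Y)) ≤ _
      rw [image_union, image_inter Sum.inr_injective]
      exact hr.sub _ _
  have hg0 : (fun Z : Set T => r (Sum.inr '' Z)) ∅ = 0 := by
    show r (Sum.inr '' ∅) = 0
    rw [image_empty, h0]
  refine ⟨ofRk _ hg hg0, rfl, fun h => hK ?_, fun Z => ?_⟩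
  · obtain ⟨C, x, hx⟩ := h
    refine ⟨Sum.inr '' C, fun i => Sum.inr (x i), conf_of_table fun I => ?_⟩
    have h1 := hx.table (isRk _) I
    rw [rk_ofRk, rk_ofRk, image_union, ← image_comp] at h1
    exact h1
  · rw [ofRk_indep]
    have h1 := hr' (Sum.inr '' Z) (fun z _ => Finset.mem_univ z)
    rw [ncard_image_of_injective _ Sum.inr_injective] at h1
    show r (Sum.inr '' Z) = Z.ncard ↔ _
    rw [h1]
    have h2 : ((Sum.inr : T → T ⊕ T) ⁻¹' ((Sum.inr : T → T ⊕ T) '' Z)) = Z :=
      preimage_image_eq _ Sum.inr_injective
    have h3 : ((Sum.inl : T → T ⊕ T) ⁻¹' ((Sum.inr : T → T ⊕ T) '' Z)) = ∅ := by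
      ext z
      simp
    constructor
    · rintro ⟨μ, a1, a2, -, a4⟩
      rw [h2] at a1 a4
      rw [h3, empty_union] at a4
      exact ⟨μ, a1, fun z hz => a2 z ⟨z, hz, rfl⟩, a4⟩
    · rintro ⟨μ, a1, a2, a4⟩
      refine ⟨μ, by rwa [h2], ?_, ?_, by rwa [h2, h3, empty_union]⟩
      · rintro z ⟨w, hw, hwz⟩
        rw [← Sum.inr_injective hwz]
        exact a2 w hw
      · rintro z - ⟨w, -, hw⟩
        exact absurd hw (by simp)

end Pool.Agent.TH422.MC
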