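import Pool.Agent.TH422.MC.IP

/-!
# The cycle matroid of `K_4`
-/

set_option autoImplicit false

namespace Pool.Agent.TH422.MC

open Set

/-- the edges of `K_4` -/
def ed : Fin 6 → Sym2 (Fin 4) := ![s(0, 1), s(0, 2), s(0, 3), s(1, 2), s(1, 3), s(2, 3)]

theorem ed_injective : Function.Injective ed := by decide

theorem ed_mem (i : Fin 6) : ed i ∈ (⊤ : SimpleGraph (Fin 4)).edgeSet := by
  rw [SimpleGraph.edgeSet_top]
  revert i
  show ∀ i, ¬ (ed i).IsDiag
  decide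

theorem exists_ed (e : Sym2 (Fin 4)) (h : ¬ e.IsDiag) : ∃ i, ed i = e := by
  revert e
  decide

def TriIn (I : Finset (Fin 6)) (v a b : Fin 4) : Prop :=
  (v ≠ a ∧ a ≠ b ∧ b ≠ v) ∧ s(v, a) ∈ I.image ed ∧ s(a, b) ∈ I.image ed ∧ s(b, v) ∈ I.image ed

instance (I : Finset (Fin 6)) (v a b : Fin 4) : Decidable (TriIn I v a b) := by
  unfold TriIn
  infer_instance

def SqIn (I : Finset (Fin 6)) (v a b c : Fin 4) : Prop :=
  (v ≠ a ∧ v ≠ b ∧ v ≠ c ∧ a ≠ b ∧ a ≠ c ∧ b ≠ c) ∧ s(v, a) ∈ I.image ed ∧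
    s(a, b) ∈ I.image ed ∧ s(b, c) ∈ I.image ed ∧ s(c, v) ∈ I.image ed

instance (I : Finset (Fin 6)) (v a b c : Fin 4) : Decidable (SqIn I v a b c) := by
  unfold SqIn
  infer_instance

theorem tri_dec : ∀ I : Finset (Fin 6), I.card ≤ 3 ∧ rK I = I.card → ∀ v a b : Fin 4,
    ¬ TriIn I v a b := by
  decide +kernel

theorem cyc_dec : ∀ I : Finset (Fin 6), rK I ≠ I.card →
    (∃ v a b : Fin 4, TriIn I v a b) ∨ ∃ v a b c : Fin 4, SqIn I v a b c := by
  decide +kernel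

theorem acyclic_iff (I : Finset (Fin 6)) :
    (SimpleGraph.fromEdgeSet (ed '' ↑I)).IsAcyclic ↔ rK I = I.card := by
  set G := SimpleGraph.fromEdgeSet (ed '' (↑I : Set (Fin 6))) with hG
  have hadj : ∀ a b : Fin 4, G.Adj a b ↔ s(a, b) ∈ I.image ed ∧ a ≠ b := by
    intro a b
    rw [hG, SimpleGraph.fromEdgeSet_adj, ← Finset.coe_image, Finset.mem_coe]
  constructor
  · intro h
    by_contra hcon
    rcases cyc_dec I hcon with ⟨v, a, b, ⟨h1, h2, h3⟩, e1, e2, e3⟩ |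
      ⟨v, a, b, c, ⟨h1, h2, h3, h4, h5, h6⟩, e1, e2, e3, e4⟩
    · have a1 : G.Adj v a := (hadj _ _).2 ⟨e1, h1⟩
      have a2 : G.Adj a b := (hadj _ _).2 ⟨e2, h2⟩
      have a3 : G.Adj b v := (hadj _ _).2 ⟨e3, h3⟩
      refine h (SimpleGraph.Walk.cons a1 (SimpleGraph.Walk.cons a2
        (SimpleGraph.Walk.cons a3 SimpleGraph.Walk.nil))) ?_
      rw [SimpleGraph.Walk.cons_isCycle_iff]
      refine ⟨?_, ?_⟩
      · rw [SimpleGraph.Walk.isPath_def]
        simp [h1.symm, h2, h3]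
      · simp [h1, h2, h1.symm, h3.symm]
    · have a1 : G.Adj v a := (hadj _ _).2 ⟨e1, h1⟩
      have a2 : G.Adj a b := (hadj _ _).2 ⟨e2, h4⟩
      have a3 : G.Adj b c := (hadj _ _).2 ⟨e3, h6⟩
      have a4 : G.Adj c v := (hadj _ _).2 ⟨e4, h3.symm⟩
      refine h (SimpleGraph.Walk.cons a1 (SimpleGraph.Walk.cons a2
        (SimpleGraph.Walk.cons a3 (SimpleGraph.Walk.cons a4 SimpleGraph.Walk.nil)))) ?_
      rw [SimpleGraph.Walk.cons_isCycle_iff]
      refine ⟨?_, ?_⟩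
      · rw [SimpleGraph.Walk.isPath_def]
        simp [h1.symm, h2.symm, h3.symm, h4, h5, h6]
      · simp [h1, h2, h3, h4, h5, h1.symm]
  · intro h v w hw
    have h3 := hw.three_le_length
    have hle : w.length ≤ I.card := by
      rw [← SimpleGraph.Walk.length_edges, ← List.toFinset_card_of_nodup hw.edges_nodup]
      refine (Finset.card_le_card (t := I.image ed) ?_).trans Finset.card_image_le
      intro e he
      have h4 := w.edges_subset_edgeSet (List.mem_toFinset.1 he)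
      rw [hG, SimpleGraph.edgeSet_fromEdgeSet] at h4
      have h5 := h4.1
      rwa [← Finset.coe_image] at h5
    have hrK : ∀ I : Finset (Fin 6), rK I ≤ 3 := by decide
    have h6 := hrK I
    have h7 : w.length = 3 := by omega
    match w, h7 with
    | .cons (v := a) g1 (.cons (v := b) g2 (.cons g3 .nil)), _ =>
      obtain ⟨e1, n1⟩ := (hadj _ _).1 g1
      obtain ⟨e2, n2⟩ := (hadj _ _).1 g2
      obtain ⟨e3, n3⟩ := (hadj _ _).1 g3
      exact tri_dec I ⟨by omega, h⟩ v a b ⟨⟨n1, n2, n3⟩, e1, e2, e3⟩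

end Pool.Agent.TH422.MC
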