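import Pool.Agent.TH422.MC.Rk

/-!
# Principal extensions create no `M(K_4)`-minor
-/

set_option autoImplicit false

namespace Pool.Agent.TH422.MC

variable {α : Type*}

/-- a common edge of two triangles -/
def cm (i j : Fin 4) : Fin 6 :=
  if h : (L i ∩ L j).Nonempty then (L i ∩ L j).min' h else 0

theorem cm_mem : ∀ i j : Fin 4, i ≠ j → cm i j ∈ L i ∧ cm i j ∈ L j := by decide

theorem cm_ne : ∀ i j k : Fin 4, i ≠ j → i ≠ k → j ≠ k → cm i j ≠ cm i k := by decide

theorem cm_notMem : ∀ i j k l : Fin 4, i ≠ j → i ≠ k → i ≠ l → j ≠ k → j ≠ l → k ≠ l →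
    cm k l ∉ L i ∪ L j := by decide

theorem union_three : ∀ i j k : Fin 4, i ≠ j → i ≠ k → j ≠ k →
    L i ∪ L j ∪ L k = Finset.univ := by decide

theorem rK_union : ∀ i j : Fin 4, i ≠ j → rK (L i ∪ L j) = 3 := by decide

theorem mem_union_of' : ∀ m : Fin 6, ∀ i j k l : Fin 4, i ≠ j → i ≠ k → i ≠ l → j ≠ k → j ≠ l →
    k ≠ l → m ∈ insert (cm k l) (L i ∪ L j) := by decide

theorem mem_union_of (i j k l : Fin 4) (hij : i ≠ j) (hik : i ≠ k) (hil : i ≠ l) (hjk : j ≠ k)
    (hjl : j ≠ l) (hkl : k ≠ l) (m : Fin 6) (hm : m ≠ cm k l) : m ∈ L i ∪ L j :=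
  (Finset.mem_insert.1 (mem_union_of' m i j k l hij hik hil hjk hjl hkl)).resolve_left hm

theorem rK_L : ∀ i, rK (L i) = 2 := by decide

theorem rK_single : ∀ i, rK {i} = 1 := by decide

theorem rK_pair : ∀ i j, i ≠ j → rK {i, j} = 2 := by decide

theorem exists_line : ∀ k j : Fin 6, k ≠ j → ∃ i, k ∈ L i ∧ rK (insert j ((L i).erase k)) = 3 ∧
    k ∉ insert j ((L i).erase k) := by
  decide

theorem rK_erase : ∀ k, rK (Finset.univ.erase k) = 3 := by decide

theorem rK_line_erase : ∀ (i : Fin 4) (k : Fin 6), k ∈ L i → rK ((L i).erase k) = 2 := by decide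

/-- three of four distinct, the rest -/
theorem exists_rest : ∀ i j : Fin 4, i ≠ j → ∃ k l : Fin 4, k ≠ l ∧ i ≠ k ∧ i ≠ l ∧ j ≠ k ∧ j ≠ l ∧
    ∀ m, m = i ∨ m = j ∨ m = k ∨ m = l := by decide

/-- the case of a contracted new element -/
theorem key1 {r : Set α → ℕ} (h : IsRk r) (h0 : r ∅ = 0) {S : Set α} (hS : S.Finite)
    {x : Fin 6 → α}
    (ht : ∀ I : Finset (Fin 6), min (r (x '' ↑I) + 1) (r (x '' ↑I ∪ S)) = min 1 (r S) + rK I) :
    HasK4 r := by
  classical
  have him : ∀ i j, x '' ↑({i, j} : Finset (Fin 6)) = {x i, x j} := fun i j => by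
    rw [Finset.coe_insert, Finset.coe_singleton, Set.image_pair]
  have him1 : ∀ i, x '' ↑({i} : Finset (Fin 6)) = {x i} := fun i => by
    rw [Finset.coe_singleton, Set.image_singleton]
  have hbS : ∀ X : Set α, r (X ∪ S) ≤ r X + r S := fun X => by
    have := h.subm (A := X) (B := S) (U := X ∪ S) (D := ∅) le_rfl (Set.empty_subset _)
      (Set.empty_subset _)
    omega
  have hmS : ∀ X : Set α, r X ≤ r (X ∪ S) := fun X => h.mono Set.subset_union_left
  rcases Nat.eq_zero_or_pos (r S) with hS0 | hS1
  · refine ⟨∅, x, conf_of_table fun I => ?_⟩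
    have h1 := ht I
    have h2 := hbS (x '' ↑I)
    have h3 := hmS (x '' ↑I)
    rw [Set.empty_union, h0]
    omega
  have hq : min 1 (r S) = 1 := by omega
  simp only [hq] at ht
  obtain ⟨s, hs, hs1⟩ : ∃ s ∈ S, 1 ≤ r {s} := by
    by_contra hcon
    push Not at hcon
    have h1 := h.union_le_of_forall (X := ∅) hS (fun s hs => by
      have := hcon s hs
      rw [← Set.singleton_def]
      omega)
    rw [Set.empty_union, h0] at h1
    omega
  have hs2 : r {s} = 1 := by
    have h1 := h.unit ∅ s
    rw [← Set.singleton_def] at h1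
    omega
  rcases Nat.lt_or_ge (r S) 2 with hlt | hge
  · refine ⟨{s}, x, conf_of_table fun I => ?_⟩
    have h1 := ht I
    have h2 : r (x '' ↑I ∪ S) + r {s} ≤ r ({s} ∪ x '' ↑I) + r S :=
      h.subm (fun z hz => hz.elim (fun h5 => Or.inl (Or.inr h5)) Or.inr) Set.subset_union_left
        (by simpa using hs)
    have h3 : r ({s} ∪ x '' ↑I) ≤ r (x '' ↑I ∪ S) :=
      h.mono (fun z hz => by
        rcases hz with hz | hz
        · rw [Set.mem_singleton_iff] at hz
          exact Or.inr (hz ▸ hs)
        · exact Or.inl hz)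
    have h4 := hbS (x '' ↑I)
    omega
  -- rank of `S` at least two
  have hcard : ∀ i j, r {x i, x j} ≤ 2 := fun i j => by
    have h1 := h.unit {x j} (x i)
    have h2 := h.unit ∅ (x j)
    rw [← Set.singleton_def] at h2
    omega
  have hpairS : ∀ i j, i ≠ j → 3 ≤ r ({x i, x j} ∪ S) := fun i j hij => by
    have h1 := ht {i, j}
    rw [him, rK_pair i j hij] at h1
    omega
  have hpair : ∀ i j, i ≠ j → r {x i, x j} = 2 := fun i j hij => by
    have h1 := ht {i, j}
    rw [him, rK_pair i j hij] at h1
    have h2 := hcard i j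
    omega
  have hsing : ∀ i, r {x i} = 1 := fun i => by
    have h1 := ht {i}
    rw [him1, rK_single] at h1
    have h2 := h.unit ∅ (x i)
    rw [← Set.singleton_def] at h2
    omega
  have hrange : x '' ↑(Finset.univ : Finset (Fin 6)) = Set.range x := by
    rw [Finset.coe_univ, Set.image_univ]
  have hun := ht Finset.univ
  have hrK : rK Finset.univ = 3 := by decide
  rw [hrK] at hun
  rcases Nat.lt_or_ge (r (x '' ↑(Finset.univ : Finset (Fin 6)))) 4 with hu | hu
  · refine ⟨∅, x, conf_of_table fun I => ?_⟩
    rw [Set.empty_union, h0]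
    have h1 := ht I
    have hsub : x '' ↑I ⊆ x '' ↑(Finset.univ : Finset (Fin 6)) :=
      Set.image_mono (by exact_mod_cast Finset.subset_univ I)
    have h2 : r (x '' ↑(Finset.univ : Finset (Fin 6)) ∪ S) + r (x '' ↑I) ≤
        r (x '' ↑(Finset.univ : Finset (Fin 6))) + r (x '' ↑I ∪ S) :=
      h.subm (fun z hz => by
        rcases hz with hz | hz
        · exact Or.inl hz
        · exact Or.inr (Or.inr hz)) hsub Set.subset_union_left
    omega
  -- rank of the six elements is four
  have hlineS : ∀ i, 3 ≤ r (x '' ↑(L i)) → r (x '' ↑(L i) ∪ S) = 3 := fun i hi => by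
    have h1 := ht (L i)
    rw [rK_L] at h1
    have h2 := hmS (x '' ↑(L i))
    omega
  have hcmS : ∀ i j, i ≠ j → 3 ≤ r (x '' ↑(L i)) → 3 ≤ r (x '' ↑(L j)) →
      r ({x (cm i j)} ∪ S) ≤ 2 := fun i j hij hi hj => by
    have h1 := hlineS i hi
    have h2 := hlineS j hj
    have h3 := ht (L i ∪ L j)
    rw [rK_union i j hij] at h3
    have hc := cm_mem i j hij
    have h4 : r (x '' ↑(L i ∪ L j) ∪ S) + r ({x (cm i j)} ∪ S) ≤
        r (x '' ↑(L i) ∪ S) + r (x '' ↑(L j) ∪ S) := by
      refine h.subm ?_ ?_ ?_
      · rw [Finset.coe_union, Set.image_union]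
        intro z hz
        simp only [Set.mem_union] at hz ⊢
        tauto
      · refine Set.union_subset_union_left _ ?_
        rw [Set.singleton_subset_iff]
        exact ⟨_, by exact_mod_cast hc.1, rfl⟩
      · refine Set.union_subset_union_left _ ?_
        rw [Set.singleton_subset_iff]
        exact ⟨_, by exact_mod_cast hc.2, rfl⟩
    omega
  have hthree : ∀ i j k, i ≠ j → i ≠ k → j ≠ k → 3 ≤ r (x '' ↑(L i)) → 3 ≤ r (x '' ↑(L j)) →
      3 ≤ r (x '' ↑(L k)) → False := fun i j k hij hik hjk hi hj hk => by
    have h1 := hcmS i j hij hi hj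
    have h2 := hcmS i k hik hi hk
    have h3 := hpairS _ _ (cm_ne i j k hij hik hjk)
    have h4 : r ({x (cm i j), x (cm i k)} ∪ S) + r S ≤
        r ({x (cm i j)} ∪ S) + r ({x (cm i k)} ∪ S) :=
      h.subm (fun z hz => by simp at hz ⊢; tauto) Set.subset_union_right Set.subset_union_right
    omega
  have htwo : ∀ i j, i ≠ j → r (x '' ↑(L i)) ≤ 2 → r (x '' ↑(L j)) ≤ 2 →
      r (x '' ↑(L i ∪ L j)) ≤ 3 := fun i j hij hi hj => by
    have hc := cm_mem i j hij
    have h1 := hsing (cm i j)
    have h4 : r (x '' ↑(L i ∪ L j)) + r {x (cm i j)} ≤ r (x '' ↑(L i)) + r (x '' ↑(L j)) := by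
      refine h.subm ?_ ?_ ?_
      · rw [Finset.coe_union, Set.image_union]
      · rw [Set.singleton_subset_iff]
        exact ⟨_, by exact_mod_cast hc.1, rfl⟩
      · rw [Set.singleton_subset_iff]
        exact ⟨_, by exact_mod_cast hc.2, rfl⟩
    omega
  have hthree' : ∀ i j k, i ≠ j → i ≠ k → j ≠ k → r (x '' ↑(L i)) ≤ 2 → r (x '' ↑(L j)) ≤ 2 →
      r (x '' ↑(L k)) ≤ 2 → False := fun i j k hij hik hjk hi hj hk => by
    have h1 := htwo i j hij hi hj
    have hc1 := cm_mem k i hik.symm
    have hc2 := cm_mem k j hjk.symm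
    have h2 := hpair _ _ (cm_ne k i j hik.symm hjk.symm hij)
    have h3 : r (x '' ↑(Finset.univ : Finset (Fin 6))) + r {x (cm k i), x (cm k j)} ≤
        r (x '' ↑(L i ∪ L j)) + r (x '' ↑(L k)) := by
      refine h.subm ?_ ?_ ?_
      · rw [← union_three i j k hij hik hjk, Finset.coe_union (L i ∪ L j), Set.image_union]
      · rintro z (rfl | rfl)
        · exact ⟨_, by exact_mod_cast Finset.mem_union_left _ hc1.2, rfl⟩
        · exact ⟨_, by exact_mod_cast Finset.mem_union_right _ hc2.2, rfl⟩
      · rintro z (rfl | rfl)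
        · exact ⟨_, by exact_mod_cast hc1.1, rfl⟩
        · exact ⟨_, by exact_mod_cast hc2.1, rfl⟩
    omega
  -- exactly two small lines
  obtain ⟨i, j, hij, hi, hj⟩ : ∃ i j, i ≠ j ∧ r (x '' ↑(L i)) ≤ 2 ∧ r (x '' ↑(L j)) ≤ 2 := by
    by_contra hcon
    push Not at hcon
    by_cases h1 : r (x '' ↑(L 0)) ≤ 2
    · have h2 := hcon 0 1 (by decide) h1
      have h3 := hcon 0 2 (by decide) h1
      have h4 := hcon 0 3 (by decide) h1
      exact hthree 1 2 3 (by decide) (by decide) (by decide) h2 h3 h4
    · by_cases h5 : r (x '' ↑(L 1)) ≤ 2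
      · have h3 := hcon 1 2 (by decide) h5
        have h4 := hcon 1 3 (by decide) h5
        exact hthree 0 2 3 (by decide) (by decide) (by decide) (by omega) h3 h4
      · by_cases h6 : r (x '' ↑(L 2)) ≤ 2
        · have h4 := hcon 2 3 (by decide) h6
          exact hthree 0 1 3 (by decide) (by decide) (by decide) (by omega) (by omega) h4
        · exact hthree 0 1 2 (by decide) (by decide) (by decide) (by omega) (by omega) (by omega)
  obtain ⟨k, l, hkl, hik, hil, hjk, hjl, hall⟩ := exists_rest i j hij
  have hk : 3 ≤ r (x '' ↑(L k)) := by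
    by_contra hcon
    exact hthree' i j k hij hik hjk hi hj (by omega)
  have hl : 3 ≤ r (x '' ↑(L l)) := by
    by_contra hcon
    exact hthree' i j l hij hil hjl hi hj (by omega)
  have hkS := hlineS k hk
  have hlS := hlineS l hl
  have hcS := hcmS k l hkl hk hl
  have hP := htwo i j hij hi hj
  have hP' : 3 ≤ r (x '' ↑(L i ∪ L j)) := by
    have h1 := ht (L i ∪ L j)
    rw [rK_union i j hij] at h1
    omega
  set c := cm k l with hc
  have hcP : c ∉ L i ∪ L j := cm_notMem i j k l hij hik hil hjk hjl hkl
  have hck := (cm_mem k l hkl).1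
  have hcl := (cm_mem k l hkl).2
  have hmP : ∀ m, m ≠ c → m ∈ L i ∪ L j := mem_union_of i j k l hij hik hil hjk hjl hkl
  obtain ⟨f, hf, hcf⟩ : ∃ f ∈ S, 2 ≤ r {x c, f} := by
    by_contra hcon
    push Not at hcon
    have h1 := h.union_le_of_forall (X := {x c}) hS (fun s hs => by
      have h2 := hcon s hs
      have h3 := hsing c
      rw [Set.pair_comm] at h2
      show r {s, x c} ≤ _
      omega)
    have h2 : r S ≤ r ({x c} ∪ S) := h.mono Set.subset_union_right
    have h3 := hsing c
    omega
  have hf1 : r {f} = 1 := by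
    have h1 := h.unit {f} (x c)
    have h2 := h.unit ∅ f
    rw [← Set.singleton_def] at h2
    have h3 : r (insert (x c) {f}) = r {x c, f} := rfl
    omega
  have hcf2 : r {x c, f} = 2 := by
    have h1 := h.unit {f} (x c)
    have h3 : r (insert (x c) {f}) = r {x c, f} := rfl
    omega
  -- the line through `c` and the two other elements
  have hbig : ∀ m, m = k ∨ m = l → c ∈ L m ∧ r (x '' ↑(L m) ∪ S) = 3 := by
    rintro m (rfl | rfl)
    · exact ⟨hck, hkS⟩
    · exact ⟨hcl, hlS⟩
  rcases Nat.lt_or_ge (r (x '' ↑(L i ∪ L j) ∪ {f})) 4 with hfl | hfg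
  · -- `f` lies in the plane
    refine ⟨∅, Function.update x c f, fun m => ?_, fun m n hmn => ?_, ?_⟩
    · rw [Set.empty_union, h0, Nat.zero_add]
      have hsmall : c ∉ L m → Function.update x c f '' ↑(L m) = x '' ↑(L m) := fun hm => by
        refine Set.image_congr fun a ha => ?_
        rw [Function.update_of_ne]
        rintro rfl
        exact hm (by exact_mod_cast ha)
      have hbig' : m = k ∨ m = l → r (Function.update x c f '' ↑(L m)) ≤ 2 := fun hm => by
        obtain ⟨h1, h2⟩ := hbig m hm
        have h3 : r (x '' ↑(Finset.univ : Finset (Fin 6))) +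
            r (Function.update x c f '' ↑(L m)) ≤
            r (x '' ↑(L i ∪ L j) ∪ {f}) + r (x '' ↑(L m) ∪ S) := by
          refine h.subm ?_ ?_ ?_
          · rintro z ⟨a, -, rfl⟩
            by_cases hac : a = c
            · rw [hac]
              exact Or.inr (Or.inl ⟨c, by exact_mod_cast h1, rfl⟩)
            · exact Or.inl (Or.inl ⟨a, by exact_mod_cast hmP a hac, rfl⟩)
          · rintro z ⟨a, -, rfl⟩
            by_cases hac : a = c
            · rw [hac, Function.update_self]
              exact Or.inr rfl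
            · rw [Function.update_of_ne hac]
              exact Or.inl ⟨a, by exact_mod_cast hmP a hac, rfl⟩
          · rintro z ⟨a, ha, rfl⟩
            by_cases hac : a = c
            · rw [hac, Function.update_self]
              exact Or.inr hf
            · rw [Function.update_of_ne hac]
              exact Or.inl ⟨a, ha, rfl⟩
        omega
      rcases hall m with hm | hm | hm | hm
      · rw [hsmall (fun h1 => hcP (Finset.mem_union_left _ (hm ▸ h1))), hm]
        exact hi
      · rw [hsmall (fun h1 => hcP (Finset.mem_union_right _ (hm ▸ h1))), hm]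
        exact hj
      · exact hbig' (Or.inl hm)
      · exact hbig' (Or.inr hm)
    · rw [Set.empty_union, h0, Nat.zero_add]
      have hone : ∀ n, n ≠ c → 2 ≤ r {f, x n} := fun n hn => by
        have h1 := hpairS c n hn.symm
        have h2 : r ({x c, x n} ∪ S) + r {f} ≤ r {f, x n} + r ({x c} ∪ S) := by
          refine h.subm ?_ ?_ ?_
          · intro z hz
            simp only [Set.mem_union, Set.mem_insert_iff, Set.mem_singleton_iff] at hz ⊢
            tauto
          · rw [Set.singleton_subset_iff]
            exact Set.mem_insert _ _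
          · rw [Set.singleton_subset_iff]
            exact Or.inr hf
        omega
      by_cases hmc : m = c
      · have hnc : n ≠ c := fun h1 => hmn (hmc.trans h1.symm)
        rw [hmc, Function.update_self, Function.update_of_ne hnc]
        exact hone n hnc
      · by_cases hnc : n = c
        · rw [hnc, Function.update_self, Function.update_of_ne hmc, Set.pair_comm]
          exact hone m hmc
        · rw [Function.update_of_ne hmc, Function.update_of_ne hnc, hpair m n hmn]
    · rw [Set.empty_union, h0, Nat.zero_add]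
      refine hP'.trans (h.mono ?_)
      rintro z ⟨a, ha, rfl⟩
      have hac : a ≠ c := fun h1 => hcP (h1 ▸ (by exact_mod_cast ha))
      exact ⟨a, Function.update_of_ne hac _ _⟩
  · -- contract `f`
    refine ⟨{f}, x, fun m => ?_, fun m n hmn => ?_, ?_⟩
    · rw [hf1]
      have hsm : r (x '' ↑(L m)) ≤ 2 → r ({f} ∪ x '' ↑(L m)) ≤ 3 := fun hm => by
        have h1 := h.unit (x '' ↑(L m)) f
        rw [Set.singleton_union]
        omega
      have hbg : m = k ∨ m = l → r ({f} ∪ x '' ↑(L m)) ≤ 3 := fun hm => by
        obtain ⟨h1, h2⟩ := hbig m hm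
        rw [← h2]
        refine h.mono ?_
        rintro z (hz | hz)
        · rw [Set.mem_singleton_iff] at hz
          exact Or.inr (hz ▸ hf)
        · exact Or.inl hz
      rcases hall m with hm | hm | hm | hm
      · exact hsm (hm ▸ hi)
      · exact hsm (hm ▸ hj)
      · exact hbg (Or.inl hm)
      · exact hbg (Or.inr hm)
    · rw [hf1]
      have hone : ∀ n, n ≠ c → 3 ≤ r {f, x c, x n} := fun n hn => by
        have h1 := hpairS c n hn.symm
        have h2 : r ({x c, x n} ∪ S) + r {x c, f} ≤ r {f, x c, x n} + r ({x c} ∪ S) := by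
          refine h.subm ?_ ?_ ?_
          · intro z hz
            simp only [Set.mem_union, Set.mem_insert_iff, Set.mem_singleton_iff] at hz ⊢
            tauto
          · intro z hz
            simp only [Set.mem_insert_iff, Set.mem_singleton_iff] at hz ⊢
            tauto
          · rintro z (rfl | rfl)
            · exact Or.inl rfl
            · exact Or.inr hf
        omega
      by_cases hmc : m = c
      · have hnc : n ≠ c := fun h1 => hmn (hmc.trans h1.symm)
        rw [hmc]
        exact hone n hnc
      · by_cases hnc : n = c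
        · rw [hnc]
          have := hone m hmc
          rw [show ({f} : Set α) ∪ {x m, x c} = {f, x c, x m} by
            rw [Set.pair_comm (x m)]
            rfl]
          exact this
        · have h1 := hpair m n hmn
          have h2 : r (x '' ↑(L i ∪ L j) ∪ {f}) + r {x m, x n} ≤
              r (x '' ↑(L i ∪ L j)) + r ({f} ∪ {x m, x n}) := by
            refine h.subm ?_ ?_ ?_
            · intro z hz
              simp only [Set.mem_union, Set.mem_singleton_iff] at hz ⊢
              tauto
            · rintro z (rfl | rfl)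
              · exact ⟨m, by exact_mod_cast hmP m hmc, rfl⟩
              · exact ⟨n, by exact_mod_cast hmP n hnc, rfl⟩
            · exact Set.subset_union_right
          omega
    · rw [hf1]
      have h1 : r (x '' ↑(L i ∪ L j) ∪ {f}) ≤ r ({f} ∪ Set.range x) := by
        refine h.mono ?_
        rintro z (hz | hz)
        · exact Or.inr (Set.image_subset_range _ _ hz)
        · exact Or.inl hz
      omega

/-- the case where the new element is one of the six -/
theorem key2 {r : Set α → ℕ} (h : IsRk r) (h0 : r ∅ = 0) {S : Set α} (hS : S.Finite)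
    {x : Fin 6 → α} {k : Fin 6} (ht1 : ∀ I : Finset (Fin 6), k ∉ I → r (x '' ↑I) = rK I)
    (ht2 : ∀ I : Finset (Fin 6), k ∈ I →
      min (r (x '' ↑(I.erase k)) + 1) (r (x '' ↑(I.erase k) ∪ S)) = rK I) : HasK4 r := by
  classical
  obtain ⟨s, hs, hs1⟩ : ∃ s ∈ S, 1 ≤ r {s} := by
    by_contra hcon
    push Not at hcon
    have h1 := h.union_le_of_forall (X := ∅) hS (fun s hs => by
      have := hcon s hs
      rw [← Set.singleton_def]
      omega)
    rw [Set.empty_union, h0] at h1
    have h2 := ht2 {k} (Finset.mem_singleton_self _)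
    rw [rK_single] at h2
    simp only [Finset.erase_singleton, Finset.coe_empty, Set.image_empty, Set.empty_union] at h2
    omega
  have hup : ∀ I : Finset (Fin 6), k ∉ I → Function.update x k s '' ↑I = x '' ↑I := fun I hI => by
    refine Set.image_congr fun a ha => ?_
    rw [Function.update_of_ne]
    rintro rfl
    exact hI (by exact_mod_cast ha)
  have hline : ∀ i, k ∈ L i → r (x '' ↑((L i).erase k) ∪ S) ≤ 2 := fun i hi => by
    have h1 := ht2 (L i) hi
    have h2 := ht1 ((L i).erase k) (Finset.notMem_erase _ _)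
    rw [rK_line_erase i k hi] at h2
    rw [rK_L] at h1
    omega
  refine ⟨∅, Function.update x k s, fun i => ?_, fun m n hmn => ?_, ?_⟩
  · rw [Set.empty_union, h0, Nat.zero_add]
    by_cases hi : k ∈ L i
    · refine le_trans (h.mono ?_) (hline i hi)
      rintro z ⟨a, ha, rfl⟩
      by_cases hak : a = k
      · rw [hak, Function.update_self]
        exact Or.inr hs
      · rw [Function.update_of_ne hak]
        exact Or.inl ⟨a, by exact_mod_cast Finset.mem_erase.2 ⟨hak, by exact_mod_cast ha⟩, rfl⟩
    · rw [hup _ hi, ht1 _ hi, rK_L]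
  · rw [Set.empty_union, h0, Nat.zero_add]
    have hone : ∀ j, j ≠ k → 2 ≤ r {s, x j} := fun j hj => by
      obtain ⟨i, hi, h3, hk⟩ := exists_line k j hj.symm
      have h4 := ht1 _ hk
      rw [h3] at h4
      have h5 := hline i hi
      have h6 : r (x '' ↑(insert j ((L i).erase k))) + r {s} ≤
          r {s, x j} + r (x '' ↑((L i).erase k) ∪ S) := by
        refine h.subm ?_ ?_ ?_
        · rw [Finset.coe_insert, Set.image_insert_eq]
          intro z hz
          simp only [Set.mem_union, Set.mem_insert_iff, Set.mem_singleton_iff] at hz ⊢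
          tauto
        · rw [Set.singleton_subset_iff]
          exact Set.mem_insert _ _
        · rw [Set.singleton_subset_iff]
          exact Or.inr hs
      omega
    by_cases hmc : m = k
    · have hnc : n ≠ k := fun h1 => hmn (hmc.trans h1.symm)
      rw [hmc, Function.update_self, Function.update_of_ne hnc]
      exact hone n hnc
    · by_cases hnc : n = k
      · rw [hnc, Function.update_self, Function.update_of_ne hmc, Set.pair_comm]
        exact hone m hmc
      · rw [Function.update_of_ne hmc, Function.update_of_ne hnc]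
        have h1 : k ∉ ({m, n} : Finset (Fin 6)) := by
          simp only [Finset.mem_insert, Finset.mem_singleton, not_or]
          exact ⟨fun h2 => hmc h2.symm, fun h2 => hnc h2.symm⟩
        have h2 := ht1 _ h1
        rw [rK_pair m n hmn, Finset.coe_insert, Finset.coe_singleton, Set.image_pair] at h2
        omega
  · rw [Set.empty_union, h0, Nat.zero_add]
    have h1 := ht1 (Finset.univ.erase k) (Finset.notMem_erase _ _)
    rw [rK_erase] at h1
    rw [← h1, ← hup _ (Finset.notMem_erase _ _)]
    exact h.mono (Set.image_subset_range _ _)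

/-- a principal extension has no `M(K_4)`-minor if the matroid has none -/
theorem hasK4_of_PE {r : Set α → ℕ} (h : IsRk r) {S : Set α} (hS : S.Finite) {e : α}
    (hK : HasK4 (PE r S e)) : HasK4 r := by
  classical
  obtain ⟨C, x, hx⟩ := hK
  have hP : IsRk (PE r S e) := h.PE S e
  have htab := hx.table hP
  have hinj : Function.Injective x := by
    intro i j hij
    by_contra hne
    have h1 := hx.2.1 i j hne
    rw [hij, Set.pair_eq_singleton, Set.union_singleton] at h1
    have h2 := hP.unit C (x j)
    omega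
  by_cases heC : e ∈ C
  · -- `e` is contracted
    have hxe : ∀ i, x i ≠ e := fun i hi => by
      have h1 := htab {i}
      rw [rK_single, Finset.coe_singleton, Set.image_singleton, hi, Set.union_singleton,
        Set.insert_eq_of_mem heC] at h1
      omega
    have hsd : ∀ I : Finset (Fin 6), (C ∪ x '' ↑I) \ {e} = (C \ {e}) ∪ x '' ↑I := fun I => by
      ext z
      simp only [Set.mem_sdiff, Set.mem_union, Set.mem_singleton_iff]
      constructor
      · rintro ⟨h1 | h1, h2⟩
        · exact Or.inl ⟨h1, h2⟩
        · exact Or.inr h1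
      · rintro (⟨h1, h2⟩ | h1)
        · exact ⟨Or.inl h1, h2⟩
        · obtain ⟨a, ha, rfl⟩ := h1
          exact ⟨Or.inr ⟨a, ha, rfl⟩, hxe a⟩
    refine HasK4.of_con h (C := C \ {e}) (key1 (h.con _) (con_empty _ _) hS (x := x) fun I => ?_)
    have h1 := htab I
    rw [PE_of_mem (show e ∈ C ∪ x '' ↑I from Or.inl heC), PE_of_mem heC, hsd] at h1
    have h2 := con_add h (C \ {e}) (x '' ↑I)
    have h3 := con_add h (C \ {e}) (x '' ↑I ∪ S)
    have h4 := con_add h (C \ {e}) S
    rw [← Set.union_assoc] at h3
    omega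
  · by_cases hex : ∃ k, x k = e
    · obtain ⟨k, hk⟩ := hex
      refine HasK4.of_con h (C := C) (key2 (h.con _) (con_empty _ _) hS (x := x) (k := k)
        (fun I hI => ?_) fun I hI => ?_)
      · have h1 := htab I
        have h2 : e ∉ C ∪ x '' ↑I := by
          rintro (h3 | ⟨a, ha, h3⟩)
          · exact heC h3
          · exact hI ((hinj (h3.trans hk.symm)) ▸ (by exact_mod_cast ha))
        rw [PE_of_notMem h2, PE_of_notMem heC] at h1
        have h3 := con_add h C (x '' ↑I)
        omega
      · have h1 := htab I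
        have h2 : e ∈ C ∪ x '' ↑I := Or.inr ⟨k, by exact_mod_cast hI, hk⟩
        have h3 : (C ∪ x '' ↑I) \ {e} = C ∪ x '' ↑(I.erase k) := by
          ext z
          simp only [Set.mem_sdiff, Set.mem_union, Set.mem_singleton_iff]
          constructor
          · rintro ⟨h4 | ⟨a, ha, rfl⟩, h5⟩
            · exact Or.inl h4
            · refine Or.inr ⟨a, ?_, rfl⟩
              have : a ≠ k := fun h6 => h5 (by rw [h6, hk])
              exact_mod_cast Finset.mem_erase.2 ⟨this, by exact_mod_cast ha⟩
          · rintro (h4 | ⟨a, ha, rfl⟩)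
            · exact ⟨Or.inl h4, fun h5 => heC (h5 ▸ h4)⟩
            · have h6 : a ∈ I.erase k := by exact_mod_cast ha
              rw [Finset.mem_erase] at h6
              exact ⟨Or.inr ⟨a, by exact_mod_cast h6.2, rfl⟩,
                fun h7 => h6.1 (hinj (h7.trans hk.symm))⟩
        rw [PE_of_mem h2, PE_of_notMem heC, h3] at h1
        have h4 := con_add h C (x '' ↑(I.erase k))
        have h5 := con_add h C (x '' ↑(I.erase k) ∪ S)
        rw [← Set.union_assoc] at h5
        omega
    · push Not at hex
      refine ⟨C, x, conf_of_table fun I => ?_⟩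
      have h1 := htab I
      have h2 : e ∉ C ∪ x '' ↑I := by
        rintro (h3 | ⟨a, -, h3⟩)
        · exact heC h3
        · exact hex a h3
      rwa [PE_of_notMem h2, PE_of_notMem heC] at h1

end Pool.Agent.TH422.MC
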