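import Pool.Agent.TH422.MC.Key

/-!
# Matroids with no `M(K_4)`-minor in terms of the rank function
-/

set_option autoImplicit false

namespace Pool.Agent.TH422.MC

open Matroid Set

variable {α β : Type*}

/-- the rank function of a matroid of finite rank -/
noncomputable def rk (M : Matroid α) (X : Set α) : ℕ := (M.eRk X).toNat

theorem coe_rk (M : Matroid α) [M.RankFinite] (X : Set α) : (rk M X : ℕ∞) = M.eRk X :=
  ENat.natCast_toNat (eRk_ne_top_iff.2 (isRkFinite_set M X))

theorem rk_eq {M : Matroid α} {X : Set α} {n : ℕ} (h : M.eRk X = n) : rk M X = n := by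
  rw [rk, h, ENat.toNat_natCast]

theorem isRk (M : Matroid α) [M.RankFinite] : IsRk (rk M) := by
  refine ⟨fun {X Y} h => ?_, fun X a => ?_, fun X Y => ?_⟩
  · have := M.eRk_mono h
    rw [← coe_rk, ← coe_rk] at this
    exact_mod_cast this
  · have := M.eRk_insert_le_add_one a X
    rw [← coe_rk, ← coe_rk] at this
    exact_mod_cast this
  · have := M.eRk_inter_add_eRk_union_le X Y
    rw [← coe_rk, ← coe_rk, ← coe_rk, ← coe_rk] at this
    have h1 : rk M (X ∩ Y) + rk M (X ∪ Y) ≤ rk M X + rk M Y := by exact_mod_cast this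
    omega

theorem eRk_contract_add (M : Matroid α) (C X : Set α) :
    (M ／ C).eRk X + M.eRk C = M.eRk (C ∪ X) := by
  obtain ⟨J, hJ⟩ := M.exists_isBasis' C
  obtain ⟨I, hI, hJI⟩ := hJ.indep.subset_isBasis'_of_subset
    (hJ.subset.trans (subset_union_left (t := X)))
  have h1 : I ∩ C = J := by
    refine (hJ.eq_of_subset_indep (hI.indep.subset inter_subset_left)
      (subset_inter hJI hJ.subset) inter_subset_right).symm
  have h2 := hI.contract_isBasis' hJ (hI.indep.subset (union_subset sdiff_subset hJI))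
  have h3 : (M ／ C).eRk X = (M ／ C).eRk ((C ∪ X) \ C) := by
    rw [← eRk_inter_ground, ← eRk_inter_ground (X := (C ∪ X) \ C), contract_ground]
    congr 1
    ext z
    simp only [mem_inter_iff, mem_sdiff, mem_union]
    tauto
  rw [h3, ← h2.encard_eq_eRk, ← hJ.encard_eq_eRk, ← hI.encard_eq_eRk, ← h1,
    encard_sdiff_add_encard_inter]

theorem rk_contract (M : Matroid α) [M.Finite] (C X : Set α) :
    rk M (C ∪ X) = rk M C + rk (M ／ C) X := by
  have h1 := eRk_contract_add M C X
  rw [← coe_rk, ← coe_rk, ← coe_rk] at h1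
  have h2 : rk (M ／ C) X + rk M C = rk M (C ∪ X) := by exact_mod_cast h1
  omega

/-- `N` is isomorphic to `M(K_4)`, by a map from the six edges -/
def IsMK (N : Matroid α) : Prop :=
  ∃ x : Fin 6 → α, Function.Injective x ∧ range x = N.E ∧
    ∀ I : Finset (Fin 6), N.Indep (x '' ↑I) ↔ rK I = I.card

theorem encard_im {x : Fin 6 → α} (hx : Function.Injective x) (I : Finset (Fin 6)) :
    (x '' ↑I).encard = I.card := by
  rw [hx.encard_image, encard_coe_eq_coe_finsetCard]

theorem IsMK.hasK4 {M : Matroid α} [M.Finite] {N : Matroid α} (hN : IsMK N) (h : N ≤m M) :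
    HasK4 (rk M) := by
  obtain ⟨C, D, rfl⟩ := h
  obtain ⟨x, hx, hE, hI⟩ := hN
  have hsub : ∀ I : Finset (Fin 6), rk M (C ∪ x '' ↑I) =
      rk M C + rk (M ／ C ＼ D) (x '' ↑I) := by
    intro I
    rw [rk_contract]
    have h1 : x '' ↑I ⊆ (M ／ C).E \ D := by
      rw [← delete_ground, ← hE]
      exact image_subset_range _ _
    have h2 : (M ／ C ＼ D).eRk (x '' ↑I) = (M ／ C).eRk (x '' ↑I) := by
      rw [delete_eq_restrict, restrict_eRk_eq _ h1]
    rw [rk, rk, rk, h2]
  have hind : ∀ I : Finset (Fin 6), rK I = I.card → rk (M ／ C ＼ D) (x '' ↑I) = I.card :=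
    fun I hi => rk_eq (((hI I).2 hi).eRk_eq_encard.trans (encard_im hx I))
  refine ⟨C, x, fun i => ?_, fun i j hij => ?_, ?_⟩
  · rw [hsub]
    have h1 : ¬ (M ／ C ＼ D).Indep (x '' ↑(L i)) := by
      rw [hI]
      have : ∀ i, ¬ rK (L i) = (L i).card := by decide
      exact this i
    have h2 : (M ／ C ＼ D).eRk (x '' ↑(L i)) ≤ (x '' ↑(L i)).encard := eRk_le_encard _ _
    have h3 : (M ／ C ＼ D).eRk (x '' ↑(L i)) ≠ (x '' ↑(L i)).encard := fun h =>
      h1 ((indep_iff_eRk_eq_encard_of_finite (Set.toFinite _)).2 h)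
    rw [encard_im hx, ← coe_rk] at h2 h3
    have h4 : ∀ i, (L i).card = 3 := by decide
    rw [h4] at h2 h3
    have h5 : rk (M ／ C ＼ D) (x '' ↑(L i)) ≤ 3 := by exact_mod_cast h2
    have h6 : rk (M ／ C ＼ D) (x '' ↑(L i)) ≠ 3 := by exact_mod_cast h3
    omega
  · have h1 : x '' ↑({i, j} : Finset (Fin 6)) = {x i, x j} := by
      rw [Finset.coe_insert, Finset.coe_singleton, Set.image_pair]
    rw [← h1, hsub, hind _ ((rK_pair i j hij).trans (Finset.card_pair hij).symm),
      Finset.card_pair hij]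
  · have h1 : rk M (C ∪ x '' ↑({0, 1, 2} : Finset (Fin 6))) ≤ rk M (C ∪ range x) :=
      (isRk M).mono (union_subset_union_right _ (image_subset_range _ _))
    rw [hsub, hind _ (by decide)] at h1
    exact h1

theorem Conf.injective {r : Set α → ℕ} (h : IsRk r) {C : Set α} {x : Fin 6 → α}
    (hx : Conf r C x) : Function.Injective x := by
  intro i j hij
  by_contra hne
  have h1 := hx.2.1 i j hne
  rw [hij, Set.pair_eq_singleton, Set.union_singleton] at h1
  have h2 := h.unit C (x j)
  omega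

theorem Conf.indep {M : Matroid α} [M.Finite] {C : Set α} {x : Fin 6 → α}
    (hx : Conf (rk M) C x) (I : Finset (Fin 6)) : (M ／ C).Indep (x '' ↑I) ↔ rK I = I.card := by
  have hinj := hx.injective (isRk M)
  have h1 := hx.table (isRk M) I
  rw [rk_contract] at h1
  rw [indep_iff_eRk_eq_encard_of_finite (Set.toFinite _), encard_im hinj, ← coe_rk]
  have h2 : rk (M ／ C) (x '' ↑I) = rK I := by omega
  rw [h2]
  exact_mod_cast Iff.rfl

theorem exists_minor_of_hasK4 {M : Matroid α} [M.Finite] (h : HasK4 (rk M)) :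
    ∃ N, N ≤m M ∧ IsMK N := by
  obtain ⟨C, x, hx⟩ := h
  have hr : range x ⊆ (M ／ C).E := by
    rintro _ ⟨i, rfl⟩
    have h1 := (hx.indep {i}).2 (by rw [rK_single, Finset.card_singleton])
    exact h1.subset_ground ⟨i, by simp, rfl⟩
  refine ⟨(M ／ C) ↾ range x, ⟨C, (M ／ C).E \ range x, (delete_compl hr).symm⟩, x,
    hx.injective (isRk M), rfl, fun I => ?_⟩
  rw [restrict_indep_iff, hx.indep, and_iff_left (image_subset_range _ _)]

/-- `M` has no minor isomorphic to `M(K_4)` -/
theorem hasK4_iff {M : Matroid α} [M.Finite] : HasK4 (rk M) ↔ ∃ N, N ≤m M ∧ IsMK N :=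
  ⟨exists_minor_of_hasK4, fun ⟨_, h, hN⟩ => hN.hasK4 h⟩

/-! ### duality -/

theorem IsMK.isBase_iff {N : Matroid α} {x : Fin 6 → α} (hx : Function.Injective x)
    (hE : range x = N.E) (hI : ∀ I : Finset (Fin 6), N.Indep (x '' ↑I) ↔ rK I = I.card)
    (J : Finset (Fin 6)) : N.IsBase (x '' ↑J) ↔ rK J = 3 ∧ J.card = 3 := by
  classical
  rw [isBase_iff_maximal_indep, maximal_iff, hI]
  constructor
  · rintro ⟨h1, h2⟩
    have h3 : ∀ J : Finset (Fin 6), rK J = J.card → (rK J = 3 ∧ J.card = 3) ∨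
        ∃ a, a ∉ J ∧ rK (insert a J) = (insert a J).card := by decide
    rcases h3 J h1 with h4 | ⟨a, ha, h5⟩
    · exact h4
    · exfalso
      have h6 := h2 ((hI _).2 h5) (image_mono (by
        rw [Finset.coe_insert]
        exact subset_insert _ _))
      apply ha
      have h7 : x a ∈ x '' ↑J := by
        rw [h6]
        exact ⟨a, by simp, rfl⟩
      obtain ⟨b, hb, hba⟩ := h7
      rw [← hx hba]
      exact_mod_cast hb
  · rintro ⟨h1, h2⟩
    refine ⟨h1.trans h2.symm, fun {K} hK hJK => ?_⟩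
    have hKr : K ⊆ range x := hE ▸ hK.subset_ground
    obtain ⟨K', rfl⟩ := subset_range_iff_exists_image_eq.1 hKr
    have hfin : K'.Finite := Set.toFinite _
    obtain ⟨K'', rfl⟩ := hfin.exists_finset_coe
    have h3 := (hI _).1 hK
    have h4 : J ⊆ K'' := by
      intro a ha
      obtain ⟨b, hb, hba⟩ := hJK ⟨a, by exact_mod_cast ha, rfl⟩
      rw [← hx hba]
      exact_mod_cast hb
    have h5 : ∀ I : Finset (Fin 6), rK I ≤ 3 := by decide
    have h6 := h5 K''
    rw [Finset.eq_of_subset_of_card_le h4 (by omega)]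

theorem IsMK.dual {N : Matroid α} (h : IsMK N) : IsMK N✶ := by
  obtain ⟨x, hx, hE, hI⟩ := h
  refine ⟨x ∘ Fin.rev, hx.comp Fin.rev_injective, ?_, fun I => ?_⟩
  · rw [dual_ground, ← hE]
    exact (Fin.rev_surjective).range_comp x
  · have h1 : (x ∘ Fin.rev) '' ↑I = x '' ↑(I.image Fin.rev) := by
      rw [image_comp, Finset.coe_image]
    rw [h1, dual_indep_iff_exists', ← hE, and_iff_right (image_subset_range _ _)]
    have h2 : (∃ B, N.IsBase B ∧ Disjoint (x '' ↑(I.image Fin.rev)) B) ↔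
        ∃ J : Finset (Fin 6), (rK J = 3 ∧ J.card = 3) ∧ Disjoint (I.image Fin.rev) J := by
      constructor
      · rintro ⟨B, hB, hd⟩
        have hKr : B ⊆ range x := hE ▸ hB.subset_ground
        obtain ⟨K', rfl⟩ := subset_range_iff_exists_image_eq.1 hKr
        have hfin : K'.Finite := Set.toFinite _
        obtain ⟨J, rfl⟩ := hfin.exists_finset_coe
        refine ⟨J, (IsMK.isBase_iff hx hE hI J).1 hB, ?_⟩
        rw [Set.disjoint_image_iff hx] at hd
        exact_mod_cast hd
      · rintro ⟨J, hJ, hd⟩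
        refine ⟨x '' ↑J, (IsMK.isBase_iff hx hE hI J).2 hJ, ?_⟩
        rw [Set.disjoint_image_iff hx]
        exact_mod_cast hd
    rw [h2]
    have h3 : ∀ I : Finset (Fin 6), (∃ J : Finset (Fin 6), (rK J = 3 ∧ J.card = 3) ∧
        Disjoint (I.image Fin.rev) J) ↔ rK I = I.card := by decide +kernel
    exact h3 I

theorem hasK4_dual {M : Matroid α} [M.Finite] (h : HasK4 (rk M✶)) : HasK4 (rk M) := by
  obtain ⟨N, ⟨C, D, rfl⟩, hN⟩ := exists_minor_of_hasK4 h
  refine hN.dual.hasK4 (M := M) ?_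
  rw [dual_contract_delete, dual_dual, delete_contract_comm']
  exact contract_delete_isMinor _ _ _

/-! ### a transfer of ranks -/

theorem eRk_le_of_forall {M : Matroid α} {N : Matroid β} {X : Set α} {Y : Set β}
    (h : ∀ I ⊆ X, M.Indep I → ∃ J ⊆ Y, N.Indep J ∧ J.encard = I.encard) :
    M.eRk X ≤ N.eRk Y := by
  obtain ⟨I, hI⟩ := M.exists_isBasis' X
  obtain ⟨J, hJY, hJ, hJI⟩ := h I hI.subset hI.indep
  rw [← hI.encard_eq_eRk, ← hJI]
  exact hJ.encard_le_eRk_of_subset hJY

/-! ### truncation -/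

theorem rk_trunc {M P : Matroid α} [M.Finite] {k : ℕ}
    (hP : ∀ I, P.Indep I ↔ M.Indep I ∧ I.encard ≤ k) (X : Set α) :
    rk P X = min (rk M X) k := by
  refine rk_eq ?_
  obtain ⟨I, hI⟩ := M.exists_isBasis' X
  have hI' : I.encard = rk M X := by rw [hI.encard_eq_eRk, coe_rk]
  refine le_antisymm ?_ ?_
  · rw [eRk_le_iff]
    intro J hJX hJ
    obtain ⟨h1, h2⟩ := (hP J).1 hJ
    have h3 := h1.encard_le_eRk_of_subset hJX
    rw [← coe_rk] at h3
    have h4 := le_min h3 h2
    exact_mod_cast h4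
  · obtain ⟨J, hJI, hJ⟩ := exists_subset_encard_eq (s := I) (k := ((min (rk M X) k : ℕ) : ℕ∞))
      (by
        rw [hI']
        exact_mod_cast min_le_left _ _)
    rw [← hJ]
    refine Indep.encard_le_eRk_of_subset ?_ (hJI.trans hI.subset)
    rw [hP]
    refine ⟨hI.indep.subset hJI, ?_⟩
    rw [hJ]
    exact_mod_cast min_le_right _ _

theorem hasK4_trunc {M P : Matroid α} [M.Finite] {k : ℕ}
    (hP : ∀ I, P.Indep I ↔ M.Indep I ∧ I.encard ≤ k) (h : HasK4 (rk P)) : HasK4 (rk M) := by
  obtain ⟨C, x, h1, h2, h3⟩ := h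
  simp only [rk_trunc hP] at h1 h2 h3
  refine ⟨C, x, fun i => ?_, fun i j hij => ?_, ?_⟩
  · have := h1 i
    omega
  · have := h2 i j hij
    omega
  · omega

/-! ### direct sums -/

theorem rk_sum {M : Matroid α} {N : Matroid β} [M.Finite] [N.Finite] (X : Set (α ⊕ β)) :
    rk (M.sum N) X = rk M (Sum.inl ⁻¹' X) + rk N (Sum.inr ⁻¹' X) := by
  refine rk_eq ?_
  obtain ⟨I, hI⟩ := M.exists_isBasis' (Sum.inl ⁻¹' X)
  obtain ⟨J, hJ⟩ := N.exists_isBasis' (Sum.inr ⁻¹' X)
  have hsplit : ∀ K : Set (α ⊕ β), K.encard = (Sum.inl ⁻¹' K).encard + (Sum.inr ⁻¹' K).encard := by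
    intro K
    conv_lhs => rw [← image_preimage_inl_union_image_preimage_inr K]
    rw [encard_union_eq, Sum.inl_injective.encard_image, Sum.inr_injective.encard_image]
    rw [Set.disjoint_left]
    rintro _ ⟨a, -, rfl⟩ ⟨b, -, hb⟩
    exact Sum.inr_ne_inl hb
  refine le_antisymm ?_ ?_
  · rw [eRk_le_iff]
    intro K hKX hK
    rw [sum_indep_iff] at hK
    rw [hsplit]
    have h1 := hK.1.encard_le_eRk_of_subset (preimage_mono (f := Sum.inl) hKX)
    have h2 := hK.2.encard_le_eRk_of_subset (preimage_mono (f := Sum.inr) hKX)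
    rw [← coe_rk] at h1 h2
    push_cast
    exact add_le_add h1 h2
  · have h1 : (M.sum N).Indep (Sum.inl '' I ∪ Sum.inr '' J) := by
      rw [sum_indep_iff]
      refine ⟨?_, ?_⟩
      · convert hI.indep using 1
        ext z
        simp
      · convert hJ.indep using 1
        ext z
        simp
    have h2 := h1.encard_le_eRk_of_subset (X := X) (by
      rintro _ (⟨a, ha, rfl⟩ | ⟨b, hb, rfl⟩)
      · exact hI.subset ha
      · exact hJ.subset hb)
    refine le_trans (le_of_eq ?_) h2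
    rw [encard_union_eq, Sum.inl_injective.encard_image, Sum.inr_injective.encard_image,
      hI.encard_eq_eRk, hJ.encard_eq_eRk, ← coe_rk, ← coe_rk]
    · push_cast
      rfl
    · rw [Set.disjoint_left]
      rintro _ ⟨a, -, rfl⟩ ⟨b, -, hb⟩
      exact Sum.inr_ne_inl hb

theorem rK_split : ∀ A : Finset (Fin 6), rK A + rK Aᶜ = 3 → A = ∅ ∨ A = Finset.univ := by
  decide +kernel

theorem hasK4_sum {M : Matroid α} {N : Matroid β} [M.Finite] [N.Finite]
    (h : HasK4 (rk (M.sum N))) : HasK4 (rk M) ∨ HasK4 (rk N) := by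
  classical
  have hR : IsRk (rk (M.sum N)) := by
    refine ⟨fun {X Y} hXY => ?_, fun X a => ?_, fun X Y => ?_⟩
    · rw [rk_sum, rk_sum]
      exact add_le_add ((isRk M).mono (preimage_mono hXY)) ((isRk N).mono (preimage_mono hXY))
    · rw [rk_sum, rk_sum]
      rcases a with a | a
      · have h1 : Sum.inl ⁻¹' (insert (Sum.inl a) X : Set (α ⊕ β)) =
          insert a (Sum.inl ⁻¹' X) := by
          ext z
          simp
        have h2 : Sum.inr ⁻¹' (insert (Sum.inl a) X : Set (α ⊕ β)) = Sum.inr ⁻¹' X := by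
          ext z
          simp
        have := (isRk M).unit (Sum.inl ⁻¹' X) a
        rw [h1, h2]
        omega
      · have h1 : Sum.inr ⁻¹' (insert (Sum.inr a) X : Set (α ⊕ β)) =
          insert a (Sum.inr ⁻¹' X) := by
          ext z
          simp
        have h2 : Sum.inl ⁻¹' (insert (Sum.inr a) X : Set (α ⊕ β)) = Sum.inl ⁻¹' X := by
          ext z
          simp
        have := (isRk N).unit (Sum.inr ⁻¹' X) a
        rw [h1, h2]
        omega
    · rw [rk_sum, rk_sum, rk_sum, rk_sum, preimage_union, preimage_union, preimage_inter,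
        preimage_inter]
      have h1 := (isRk M).sub (Sum.inl ⁻¹' X) (Sum.inl ⁻¹' Y)
      have h2 := (isRk N).sub (Sum.inr ⁻¹' X) (Sum.inr ⁻¹' Y)
      omega
  obtain ⟨C, x, hx⟩ := h
  have htab := hx.table hR
  set A : Finset (Fin 6) := Finset.univ.filter (fun i => ∃ a, x i = Sum.inl a) with hA
  have hAl : ∀ I : Finset (Fin 6), I ⊆ A → Sum.inr ⁻¹' (C ∪ x '' ↑I) = Sum.inr ⁻¹' C := by
    intro I hI
    ext z
    simp only [mem_preimage, mem_union, mem_image]
    constructor
    · rintro (h1 | ⟨i, hi, h1⟩)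
      · exact h1
      · obtain ⟨a, ha⟩ := (Finset.mem_filter.1 (hI (by exact_mod_cast hi))).2
        rw [ha] at h1
        exact absurd h1 (by simp)
    · exact Or.inl
  have hAr : ∀ I : Finset (Fin 6), I ⊆ Aᶜ → Sum.inl ⁻¹' (C ∪ x '' ↑I) = Sum.inl ⁻¹' C := by
    intro I hI
    ext z
    simp only [mem_preimage, mem_union, mem_image]
    constructor
    · rintro (h1 | ⟨i, hi, h1⟩)
      · exact h1
      · exfalso
        have h2 := Finset.mem_compl.1 (hI (by exact_mod_cast hi))
        exact h2 (Finset.mem_filter.2 ⟨Finset.mem_univ _, z, h1⟩)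
    · exact Or.inl
  have h1 := htab A
  have h2 := htab Aᶜ
  have h3 := htab Finset.univ
  have hL' : Sum.inl ⁻¹' (C ∪ x '' ↑(Finset.univ : Finset (Fin 6))) =
      Sum.inl ⁻¹' (C ∪ x '' ↑A) := by
    ext z
    simp only [mem_preimage, mem_union, mem_image]
    constructor
    · rintro (h4 | ⟨i, -, h4⟩)
      · exact Or.inl h4
      · refine Or.inr ⟨i, ?_, h4⟩
        have : i ∈ A := Finset.mem_filter.2 ⟨Finset.mem_univ i, z, h4⟩
        exact_mod_cast this
    · rintro (h4 | ⟨i, -, h4⟩)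
      · exact Or.inl h4
      · exact Or.inr ⟨i, by simp, h4⟩
  have hR' : Sum.inr ⁻¹' (C ∪ x '' ↑(Finset.univ : Finset (Fin 6))) =
      Sum.inr ⁻¹' (C ∪ x '' ↑Aᶜ) := by
    ext z
    simp only [mem_preimage, mem_union, mem_image]
    constructor
    · rintro (h4 | ⟨i, -, h4⟩)
      · exact Or.inl h4
      · refine Or.inr ⟨i, ?_, h4⟩
        have : i ∈ Aᶜ := by
          rw [Finset.mem_compl, hA, Finset.mem_filter]
          rintro ⟨-, a, ha⟩
          rw [ha] at h4
          exact absurd h4 (by simp)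
        exact_mod_cast this
    · rintro (h4 | ⟨i, -, h4⟩)
      · exact Or.inl h4
      · exact Or.inr ⟨i, by simp, h4⟩
  rw [rk_sum, rk_sum, hAl A (Finset.Subset.refl _)] at h1
  rw [rk_sum, rk_sum, hAr Aᶜ (Finset.Subset.refl _)] at h2
  rw [rk_sum, rk_sum, hL', hR'] at h3
  have h4 : rK Finset.univ = 3 := by decide
  rw [h4] at h3
  rcases rK_split A (by omega) with h5 | h5
  · right
    have h6 : ∀ i, ∃ b, x i = Sum.inr b := by
      intro i
      rcases hxi : x i with a | b
      · exfalso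
        have : i ∈ A := Finset.mem_filter.2 ⟨Finset.mem_univ i, a, hxi⟩
        rw [h5] at this
        exact absurd this (Finset.notMem_empty _)
      · exact ⟨b, rfl⟩
    choose y hy using h6
    refine ⟨Sum.inr ⁻¹' C, y, conf_of_table fun I => ?_⟩
    have h7 := htab I
    rw [rk_sum, rk_sum, hAr I (by rw [h5, Finset.compl_empty]; exact Finset.subset_univ _)] at h7
    have h8 : Sum.inr ⁻¹' (C ∪ x '' ↑I) = Sum.inr ⁻¹' C ∪ y '' ↑I := by
      ext z
      simp only [mem_preimage, mem_union, mem_image, hy, Sum.inr.injEq]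
    rw [h8] at h7
    omega
  · left
    have h6 : ∀ i, ∃ b, x i = Sum.inl b := by
      intro i
      have : i ∈ A := by
        rw [h5]
        exact Finset.mem_univ _
      exact (Finset.mem_filter.1 this).2
    choose y hy using h6
    refine ⟨Sum.inl ⁻¹' C, y, conf_of_table fun I => ?_⟩
    have h7 := htab I
    rw [rk_sum, rk_sum, hAl I (by rw [h5]; exact Finset.subset_univ _)] at h7
    have h8 : Sum.inl ⁻¹' (C ∪ x '' ↑I) = Sum.inl ⁻¹' C ∪ y '' ↑I := by
      ext z
      simp only [mem_preimage, mem_union, mem_image, hy, Sum.inl.injEq]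
    rw [h8] at h7
    omega

/-! ### matroids from rank functions -/

theorem IsRk.le_ncard [Finite α] {r : Set α → ℕ} (h : IsRk r) (h0 : r ∅ = 0) (X : Set α) :
    r X ≤ X.ncard := by
  induction X, Set.toFinite X using Set.Finite.induction_on with
  | empty => simp [h0]
  | @insert a T ha hT ih =>
    rw [ncard_insert_of_notMem ha hT]
    exact (h.unit T a).trans (by omega)

theorem IsRk.indep_subset [Finite α] {r : Set α → ℕ} (h : IsRk r) (h0 : r ∅ = 0)
    {I J : Set α} (hJ : r J = J.ncard) (hIJ : I ⊆ J) : r I = I.ncard := by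
  have h1 := h.subm (A := I) (B := J \ I) (U := J) (D := ∅)
    (fun z hz => by
      by_cases hzI : z ∈ I
      · exact Or.inl hzI
      · exact Or.inr ⟨hz, hzI⟩) (empty_subset _) (empty_subset _)
  have h2 := h.le_ncard h0 I
  have h3 := h.le_ncard h0 (J \ I)
  have h4 := ncard_sdiff_add_ncard_of_subset hIJ (Set.toFinite J)
  omega

/-- the matroid of a rank function -/
noncomputable def ofRk [Finite α] (r : Set α → ℕ) (h : IsRk r) (h0 : r ∅ = 0) : Matroid α :=
  (IndepMatroid.ofFinite (E := univ) (Set.toFinite _) (fun I => r I = I.ncard)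
    (by simp [h0]) (fun _ _ hJ hIJ => h.indep_subset h0 hJ hIJ)
    (fun I J hI hJ hIJ => by
      by_contra hcon
      push Not at hcon
      have h1 : r (I ∪ J) ≤ r I := by
        refine h.union_le_of_forall (Set.toFinite J) fun s hs => ?_
        by_cases hsI : s ∈ I
        · rw [insert_eq_of_mem hsI]
        · have h2 := hcon s hs hsI
          have h3 := h.unit I s
          rw [ncard_insert_of_notMem hsI (Set.toFinite I)] at h2
          omega
      have h4 := h.mono (subset_union_right : J ⊆ I ∪ J)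
      omega)
    (fun _ _ => subset_univ _)).matroid

theorem ofRk_indep [Finite α] (r : Set α → ℕ) (h : IsRk r) (h0 : r ∅ = 0) (I : Set α) :
    (ofRk r h h0).Indep I ↔ r I = I.ncard := Iff.rfl

theorem ofRk_E [Finite α] (r : Set α → ℕ) (h : IsRk r) (h0 : r ∅ = 0) :
    (ofRk r h h0).E = univ := rfl

instance ofRk_finite [Finite α] (r : Set α → ℕ) (h : IsRk r) (h0 : r ∅ = 0) :
    (ofRk r h h0).Finite := ⟨Set.toFinite _⟩

theorem rk_ofRk [Finite α] (r : Set α → ℕ) (h : IsRk r) (h0 : r ∅ = 0) (X : Set α) :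
    rk (ofRk r h h0) X = r X := by
  refine rk_eq ?_
  obtain ⟨I, hI⟩ := (ofRk r h h0).exists_isBasis' X
  have h1 : r I = I.ncard := hI.indep
  rw [← hI.encard_eq_eRk, ← (Set.toFinite I).cast_ncard_eq, ← h1]
  congr 1
  refine le_antisymm (h.mono hI.subset) ?_
  have h2 : r (I ∪ X) ≤ r I := by
    refine h.union_le_of_forall (Set.toFinite X) fun s hs => ?_
    by_cases hsI : s ∈ I
    · rw [insert_eq_of_mem hsI]
    · by_contra hcon
      have h3 := h.unit I s
      have h4 : (ofRk r h h0).Indep (insert s I) := by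
        rw [ofRk_indep, ncard_insert_of_notMem hsI (Set.toFinite I)]
        omega
      have h5 := hI.eq_of_subset_indep h4 (subset_insert _ _) (insert_subset hs hI.subset)
      rw [h5] at hsI
      exact hsI (mem_insert _ _)
  exact (h.mono subset_union_right).trans h2

end Pool.Agent.TH422.MC
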