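import Mathlib

/-!
# Rank functions and configurations of the type of `M(K_4)`

The six elements `0, …, 5` are the edges `12, 13, 14, 23, 24, 34` of the complete graph `K_4`; `L i`,
`i = 0, …, 3`, are the triangles.
-/

set_option autoImplicit false

namespace Pool.Agent.TH422.MC

/-- the triangles of `K_4` -/
def L : Fin 4 → Finset (Fin 6) := ![{0, 1, 3}, {0, 2, 4}, {1, 2, 5}, {3, 4, 5}]

/-- the rank function of `M(K_4)` -/
def rK (I : Finset (Fin 6)) : ℕ := if I.card ≤ 2 then I.card else if ∃ i, I = L i then 2 else 3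

/-- a rank function -/
structure IsRk {α : Type*} (r : Set α → ℕ) : Prop where
  mono : ∀ {X Y : Set α}, X ⊆ Y → r X ≤ r Y
  unit : ∀ (X : Set α) (a : α), r (insert a X) ≤ r X + 1
  sub : ∀ X Y : Set α, r (X ∪ Y) + r (X ∩ Y) ≤ r X + r Y

theorem IsRk.subm {α : Type*} {r : Set α → ℕ} (h : IsRk r) {A B U D : Set α} (hU : U ⊆ A ∪ B)
    (hA : D ⊆ A) (hB : D ⊆ B) : r U + r D ≤ r A + r B :=
  (add_le_add (h.mono hU) (h.mono (Set.subset_inter hA hB))).trans (h.sub A B)

/-- the triangles have rank at most two over `C`, the pairs rank two and the whole rank three -/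
def Conf {α : Type*} (r : Set α → ℕ) (C : Set α) (x : Fin 6 → α) : Prop :=
  (∀ i, r (C ∪ x '' ↑(L i)) ≤ r C + 2) ∧ (∀ i j, i ≠ j → r C + 2 ≤ r (C ∪ {x i, x j})) ∧
    r C + 3 ≤ r (C ∪ Set.range x)

def HasK4 {α : Type*} (r : Set α → ℕ) : Prop := ∃ C x, Conf r C x

/-- one step of the closure -/
def st (i : Fin 4) (J : Finset (Fin 6)) : Finset (Fin 6) :=
  if 2 ≤ (J ∩ L i).card then J ∪ L i else J

def full (J : Finset (Fin 6)) : Finset (Fin 6) :=
  st 3 (st 2 (st 1 (st 0 (st 3 (st 2 (st 1 (st 0 J)))))))

theorem full_eq : ∀ J : Finset (Fin 6), rK J = 3 → full J = Finset.univ := by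
  decide +kernel

theorem table_aux (g : Finset (Fin 6) → ℕ) (hmono : ∀ I J, I ⊆ J → g I ≤ g J)
    (hunit : ∀ a I, g (insert a I) ≤ g I + 1) (hsub : ∀ I J, g (I ∪ J) + g (I ∩ J) ≤ g I + g J)
    (hL : ∀ i, g (L i) ≤ g ∅ + 2) (hp : ∀ i j, i ≠ j → g ∅ + 2 ≤ g {i, j})
    (hu : g ∅ + 3 ≤ g Finset.univ) (I : Finset (Fin 6)) : g I = g ∅ + rK I := by
  have hst : ∀ i J, g (st i J) ≤ g J := by
    intro i J
    unfold st
    split_ifs with h
    · obtain ⟨a, b, ha, hb, hab⟩ := Finset.one_lt_card_iff.1 h
      have h1 : g {a, b} ≤ g (J ∩ L i) := by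
        refine hmono _ _ ?_
        intro c hc
        rw [Finset.mem_insert, Finset.mem_singleton] at hc
        rcases hc with rfl | rfl <;> assumption
      have := hsub J (L i)
      have := hL i
      have := hp a b hab
      omega
    · exact le_rfl
  have hfull : ∀ J, g (full J) ≤ g J := fun J =>
    (hst _ _).trans ((hst _ _).trans ((hst _ _).trans ((hst _ _).trans ((hst _ _).trans
      ((hst _ _).trans ((hst _ _).trans (hst _ _)))))))
  have h1 : ∀ a, g {a} ≤ g ∅ + 1 := fun a => by
    have := hunit a ∅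
    simpa using this
  have h2 : ∀ a b, g {a, b} ≤ g ∅ + 2 := fun a b => by
    have := hunit a {b}
    have := h1 b
    omega
  have h3 : ∀ a b c, g {a, b, c} ≤ g ∅ + 3 := fun a b c => by
    have := hunit a {b, c}
    have := h2 b c
    omega
  have hun : g Finset.univ ≤ g ∅ + 3 := by
    have h4 : full {0, 1, 2} = Finset.univ := full_eq _ (by decide)
    rw [← h4]
    exact (hfull _).trans (h3 _ _ _)
  by_cases hc : I.card ≤ 2
  · have hr : rK I = I.card := if_pos hc
    rw [hr]
    have hc' : I.card = 0 ∨ I.card = 1 ∨ I.card = 2 := by omega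
    rcases hc' with h | h | h
    · rw [Finset.card_eq_zero.1 h]
      rfl
    · obtain ⟨a, rfl⟩ := Finset.card_eq_one.1 h
      rw [h]
      obtain ⟨b, hb⟩ : ∃ b : Fin 6, b ≠ a := exists_ne a
      have := hp b a hb
      have := hunit b {a}
      have := h1 a
      omega
    · obtain ⟨a, b, hab, rfl⟩ := Finset.card_eq_two.1 h
      rw [h]
      have := hp a b hab
      have := h2 a b
      omega
  · by_cases hl : ∃ i, I = L i
    · have hr : rK I = 2 := by
        unfold rK
        rw [if_neg hc, if_pos hl]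
      rw [hr]
      have h5 : 1 < I.card := by omega
      obtain ⟨a, b, ha, hb, hab⟩ := Finset.one_lt_card_iff.1 h5
      obtain ⟨i, hi⟩ := hl
      have h6 : g {a, b} ≤ g I := by
        refine hmono _ _ ?_
        intro c hc
        rw [Finset.mem_insert, Finset.mem_singleton] at hc
        rcases hc with rfl | rfl <;> assumption
      have := hp a b hab
      have := hL i
      rw [← hi] at this
      omega
    · have hr : rK I = 3 := by
        unfold rK
        rw [if_neg hc, if_neg hl]
      rw [hr]
      have h7 := hfull I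
      rw [full_eq I hr] at h7
      have := hmono I Finset.univ (Finset.subset_univ _)
      omega

variable {α : Type*}

theorem Conf.table {r : Set α → ℕ} (h : IsRk r) {C : Set α} {x : Fin 6 → α} (hx : Conf r C x)
    (I : Finset (Fin 6)) : r (C ∪ x '' ↑I) = r C + rK I := by
  obtain ⟨hL, hp, hu⟩ := hx
  have h0 : C ∪ x '' ↑(∅ : Finset (Fin 6)) = C := by simp
  have key := table_aux (fun I => r (C ∪ x '' ↑I)) (fun I J hIJ => h.mono
    (Set.union_subset_union_right _ (Set.image_mono (by exact_mod_cast hIJ)))) ?_ ?_ ?_ ?_ ?_ I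
  · simp only [h0] at key
    exact key
  · intro a I
    have : C ∪ x '' ↑(insert a I) = insert (x a) (C ∪ x '' ↑I) := by
      rw [Finset.coe_insert, Set.image_insert_eq, Set.union_insert]
    show r (C ∪ x '' ↑(insert a I)) ≤ _
    rw [this]
    exact h.unit _ _
  · intro I J
    refine h.subm ?_ ?_ ?_
    · rw [Finset.coe_union, Set.image_union]
      intro z hz
      simp only [Set.mem_union] at hz ⊢
      tauto
    · exact Set.union_subset_union_right _ (Set.image_mono (by simp))
    · exact Set.union_subset_union_right _ (Set.image_mono (by simp))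
  · intro i
    simp only [h0]
    exact hL i
  · intro i j hij
    simp only [h0]
    have : x '' ↑({i, j} : Finset (Fin 6)) = {x i, x j} := by
      rw [Finset.coe_insert, Finset.coe_singleton, Set.image_pair]
    rw [this]
    exact hp i j hij
  · simp only [h0, Finset.coe_univ, Set.image_univ]
    exact hu

theorem conf_of_table {r : Set α → ℕ} {C : Set α} {x : Fin 6 → α}
    (h : ∀ I : Finset (Fin 6), r (C ∪ x '' ↑I) = r C + rK I) : Conf r C x := by
  refine ⟨fun i => ?_, fun i j hij => ?_, ?_⟩
  · rw [h]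
    have : ∀ i, rK (L i) = 2 := by decide
    rw [this]
  · have h1 : x '' ↑({i, j} : Finset (Fin 6)) = {x i, x j} := by
      rw [Finset.coe_insert, Finset.coe_singleton, Set.image_pair]
    rw [← h1, h]
    have : ({i, j} : Finset (Fin 6)).card = 2 := Finset.card_pair hij
    rw [rK, if_pos this.le, this]
  · rw [← Set.image_univ, ← Finset.coe_univ, h]
    have : rK Finset.univ = 3 := by decide
    rw [this]

/-- contraction -/
def con (r : Set α → ℕ) (C : Set α) (X : Set α) : ℕ := r (C ∪ X) - r C

theorem con_add {r : Set α → ℕ} (h : IsRk r) (C X : Set α) : r (C ∪ X) = r C + con r C X := by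
  have := h.mono (Set.subset_union_left : C ⊆ C ∪ X)
  unfold con
  omega

theorem con_empty (r : Set α → ℕ) (C : Set α) : con r C ∅ = 0 := by
  simp [con]

theorem IsRk.con {r : Set α → ℕ} (h : IsRk r) (C : Set α) : IsRk (con r C) := by
  refine ⟨fun {X Y} hXY => ?_, fun X a => ?_, fun X Y => ?_⟩
  · exact Nat.sub_le_sub_right (h.mono (Set.union_subset_union_right _ hXY)) _
  · have h1 := con_add h C (insert a X)
    have h2 := con_add h C X
    have h3 := h.unit (C ∪ X) a
    rw [← Set.union_insert] at h3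
    omega
  · have h1 := con_add h C (X ∪ Y)
    have h2 := con_add h C (X ∩ Y)
    have h3 := con_add h C X
    have h4 := con_add h C Y
    have h5 : r (C ∪ (X ∪ Y)) + r (C ∪ (X ∩ Y)) ≤ r (C ∪ X) + r (C ∪ Y) := by
      refine h.subm ?_ ?_ ?_
      · intro z hz
        simp only [Set.mem_union] at hz ⊢
        tauto
      · exact Set.union_subset_union_right _ Set.inter_subset_left
      · exact Set.union_subset_union_right _ Set.inter_subset_right
    omega

theorem HasK4.of_con {r : Set α → ℕ} (h : IsRk r) {C : Set α} (hc : HasK4 (con r C)) : HasK4 r := by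
  obtain ⟨C', x, h1, h2, h3⟩ := hc
  refine ⟨C ∪ C', x, fun i => ?_, fun i j hij => ?_, ?_⟩
  · have h4 := h1 i
    have h5 := con_add h C (C' ∪ x '' ↑(L i))
    have h6 := con_add h C C'
    rw [Set.union_assoc]
    omega
  · have h4 := h2 i j hij
    have h5 := con_add h C (C' ∪ {x i, x j})
    have h6 := con_add h C C'
    rw [Set.union_assoc]
    omega
  · have h4 := h3
    have h5 := con_add h C (C' ∪ Set.range x)
    have h6 := con_add h C C'
    rw [Set.union_assoc]
    omega

open Classical in
/-- the rank function of the principal extension -/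
noncomputable def PE (r : Set α → ℕ) (S : Set α) (e : α) (X : Set α) : ℕ :=
  if e ∈ X then min (r (X \ {e}) + 1) (r (X \ {e} ∪ S)) else r X

theorem PE_of_mem {r : Set α → ℕ} {S : Set α} {e : α} {X : Set α} (h : e ∈ X) :
    PE r S e X = min (r (X \ {e}) + 1) (r (X \ {e} ∪ S)) := if_pos h

theorem PE_of_notMem {r : Set α → ℕ} {S : Set α} {e : α} {X : Set α} (h : e ∉ X) :
    PE r S e X = r X := if_neg h

theorem IsRk.PE {r : Set α → ℕ} (h : IsRk r) (S : Set α) (e : α) : IsRk (PE r S e) := by
  refine ⟨fun {X Y} hXY => ?_, fun X a => ?_, fun X Y => ?_⟩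
  · by_cases hY : e ∈ Y
    · rw [PE_of_mem hY]
      by_cases hX : e ∈ X
      · rw [PE_of_mem hX]
        have h1 : r (X \ {e}) ≤ r (Y \ {e}) := h.mono (Set.sdiff_subset_sdiff_left hXY)
        have h2 : r (X \ {e} ∪ S) ≤ r (Y \ {e} ∪ S) :=
          h.mono (Set.union_subset_union_left _ (Set.sdiff_subset_sdiff_left hXY))
        exact min_le_min (by omega) h2
      · rw [PE_of_notMem hX]
        have h1 : X ⊆ Y \ {e} := fun z hz => ⟨hXY hz, fun h2 => hX (h2 ▸ hz)⟩
        have h2 := h.mono h1
        have h3 := h.mono (h1.trans (Set.subset_union_left (t := S)))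
        exact le_min (by omega) h3
    · have hX : e ∉ X := fun h1 => hY (hXY h1)
      rw [PE_of_notMem hY, PE_of_notMem hX]
      exact h.mono hXY
  · by_cases hX : e ∈ X
    · rw [PE_of_mem (Set.mem_insert_of_mem _ hX), PE_of_mem hX]
      by_cases hae : a = e
      · subst hae
        rw [Set.insert_eq_of_mem hX]
        omega
      · have h1 : insert a X \ {e} = insert a (X \ {e}) :=
          Set.insert_sdiff_of_notMem _ (by simpa using hae)
        rw [h1, Set.insert_union]
        have h2 := h.unit (X \ {e}) a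
        have h3 := h.unit (X \ {e} ∪ S) a
        omega
    · by_cases hae : a = e
      · subst hae
        rw [PE_of_mem (Set.mem_insert _ _), PE_of_notMem hX]
        have h1 : insert a X \ {a} = X := by
          rw [Set.insert_sdiff_of_mem _ (Set.mem_singleton _), Set.sdiff_singleton_eq_self hX]
        rw [h1]
        exact min_le_left _ _
      · have : e ∉ insert a X := by
          rw [Set.mem_insert_iff]
          push Not
          exact ⟨fun h1 => hae h1.symm, hX⟩
        rw [PE_of_notMem this, PE_of_notMem hX]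
        exact h.unit _ _
  · by_cases hX : e ∈ X
    · by_cases hY : e ∈ Y
      · rw [PE_of_mem hX, PE_of_mem hY, PE_of_mem (Set.mem_union_left _ hX),
          PE_of_mem (Set.mem_inter hX hY)]
        have h1 : r ((X ∪ Y) \ {e}) + r ((X ∩ Y) \ {e}) ≤ r (X \ {e}) + r (Y \ {e}) :=
          h.subm (fun z hz => by simp at hz ⊢; tauto) (fun z hz => by simp at hz ⊢; tauto)
            (fun z hz => by simp at hz ⊢; tauto)
        have h2 : r ((X ∪ Y) \ {e} ∪ S) + r ((X ∩ Y) \ {e} ∪ S) ≤
            r (X \ {e} ∪ S) + r (Y \ {e} ∪ S) :=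
          h.subm (fun z hz => by simp at hz ⊢; tauto) (fun z hz => by simp at hz ⊢; tauto)
            (fun z hz => by simp at hz ⊢; tauto)
        have h3 : r ((X ∪ Y) \ {e} ∪ S) + r ((X ∩ Y) \ {e}) ≤
            r (X \ {e}) + r (Y \ {e} ∪ S) :=
          h.subm (fun z hz => by simp at hz ⊢; tauto) (fun z hz => by simp at hz ⊢; tauto)
            (fun z hz => by simp at hz ⊢; tauto)
        have h4 : r ((X ∪ Y) \ {e} ∪ S) + r ((X ∩ Y) \ {e}) ≤
            r (X \ {e} ∪ S) + r (Y \ {e}) :=
          h.subm (fun z hz => by simp at hz ⊢; tauto) (fun z hz => by simp at hz ⊢; tauto)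
            (fun z hz => by simp at hz ⊢; tauto)
        omega
      · rw [PE_of_mem hX, PE_of_notMem hY, PE_of_mem (Set.mem_union_left _ hX),
          PE_of_notMem (fun h1 => hY h1.2)]
        have h1 : r ((X ∪ Y) \ {e}) + r (X ∩ Y) ≤ r (X \ {e}) + r Y :=
          h.subm (fun z hz => by simp at hz ⊢; tauto)
            (fun z hz => ⟨hz.1, fun h2 => hY (by rw [← show z = e from h2]; exact hz.2)⟩)
            (fun z hz => hz.2)
        have h2 : r ((X ∪ Y) \ {e} ∪ S) + r (X ∩ Y) ≤ r (X \ {e} ∪ S) + r Y :=
          h.subm (fun z hz => by simp at hz ⊢; tauto)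
            (fun z hz => Or.inl ⟨hz.1, fun h2 => hY (by rw [← show z = e from h2]; exact hz.2)⟩)
            (fun z hz => hz.2)
        omega
    · by_cases hY : e ∈ Y
      · rw [PE_of_notMem hX, PE_of_mem hY, PE_of_mem (Set.mem_union_right _ hY),
          PE_of_notMem (fun h1 => hX h1.1)]
        have h1 : r ((X ∪ Y) \ {e}) + r (X ∩ Y) ≤ r X + r (Y \ {e}) :=
          h.subm (fun z hz => by simp at hz ⊢; tauto) (fun z hz => hz.1)
            (fun z hz => ⟨hz.2, fun h2 => hX (by rw [← show z = e from h2]; exact hz.1)⟩)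
        have h2 : r ((X ∪ Y) \ {e} ∪ S) + r (X ∩ Y) ≤ r X + r (Y \ {e} ∪ S) :=
          h.subm (fun z hz => by simp at hz ⊢; tauto) (fun z hz => hz.1)
            (fun z hz => Or.inl ⟨hz.2, fun h2 => hX (by rw [← show z = e from h2]; exact hz.1)⟩)
        omega
      · rw [PE_of_notMem hX, PE_of_notMem hY,
          PE_of_notMem (fun h1 => h1.elim hX hY), PE_of_notMem (fun h1 => hX h1.1)]
        exact h.sub X Y

theorem IsRk.union_le_of_forall {r : Set α → ℕ} (h : IsRk r) {X S : Set α} (hS : S.Finite)
    (hs : ∀ s ∈ S, r (insert s X) ≤ r X) : r (X ∪ S) ≤ r X := by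
  induction S, hS using Set.Finite.induction_on with
  | empty => simp
  | @insert a T _ _ ih =>
    have h1 := ih (fun s hs' => hs s (Set.mem_insert_of_mem _ hs'))
    have h2 := hs a (Set.mem_insert _ _)
    have h3 : r (X ∪ insert a T) + r X ≤ r (insert a X) + r (X ∪ T) :=
      h.subm (fun z hz => by simp at hz ⊢; tauto) (Set.subset_insert _ _) Set.subset_union_left
    omega

end Pool.Agent.TH422.MC
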